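import Mathlib

/-!
Parity of the number of points of `y² = x³ + Ax + B` over `ZMod p` (helper673).
-/

set_option autoImplicit false

namespace Pool.Agent.Y673.LG

open Finset

section
variable {p : ℕ} [Fact p.Prime]

/-- the affine points -/
def pt (A B : ZMod p) : Finset (ZMod p × ZMod p) :=
  univ.filter fun P => P.2 ^ 2 = P.1 ^ 3 + A * P.1 + B

/-- the roots of the cubic -/
def rt (A B : ZMod p) : Finset (ZMod p) := univ.filter fun x => x ^ 3 + A * x + B = 0

theorem small_ne {n : ℕ} (h0 : n ≠ 0) (h : ∀ q : ℕ, q.Prime → q ∣ n → q < p) : ((n : ℕ) : ZMod p) ≠ 0 := by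
  intro h1
  rw [ZMod.natCast_eq_zero_iff] at h1
  exact lt_irrefl p (h p Fact.out h1)

theorem two_ne (h : 5 ≤ p) : (2 : ZMod p) ≠ 0 := by
  have h1 : ((2 : ℕ) : ZMod p) ≠ 0 := by
    rw [Ne, ZMod.natCast_eq_zero_iff]
    intro h2
    have := Nat.le_of_dvd (by norm_num) h2
    omega
  exact_mod_cast h1

theorem three_ne (h : 5 ≤ p) : (3 : ZMod p) ≠ 0 := by
  have h1 : ((3 : ℕ) : ZMod p) ≠ 0 := by
    rw [Ne, ZMod.natCast_eq_zero_iff]
    intro h2
    have := Nat.le_of_dvd (by norm_num) h2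
    omega
  exact_mod_cast h1

theorem sq_card_le (w : ZMod p) : (univ.filter fun y : ZMod p => y ^ 2 = w).card ≤ 2 := by
  rcases (univ.filter fun y : ZMod p => y ^ 2 = w).eq_empty_or_nonempty with h | ⟨y₀, h⟩
  · rw [h, card_empty]; omega
  · rw [mem_filter] at h
    have h1 : (univ.filter fun y : ZMod p => y ^ 2 = w) ⊆ {y₀, -y₀} := by
      intro y hy
      rw [mem_filter] at hy
      rw [mem_insert, mem_singleton]
      exact sq_eq_sq_iff_eq_or_eq_neg.1 (hy.2.trans h.2.symm)
    exact (card_le_card h1).trans card_le_two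

theorem sq_card_cast (h5 : 5 ≤ p) (w : ZMod p) :
    (((univ.filter fun y : ZMod p => y ^ 2 = w).card : ℕ) : ZMod 2) = if w = 0 then 1 else 0 := by
  split_ifs with hw
  · have h1 : (univ.filter fun y : ZMod p => y ^ 2 = w) = {0} := by
      ext y
      rw [mem_filter, mem_singleton, hw]
      constructor
      · rintro ⟨-, h⟩
        exact pow_eq_zero_iff (by norm_num) |>.1 h
      · rintro rfl
        exact ⟨mem_univ _, by ring⟩
    rw [h1, card_singleton, Nat.cast_one]
  · rcases (univ.filter fun y : ZMod p => y ^ 2 = w).eq_empty_or_nonempty with h | ⟨y₀, h⟩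
    · rw [h, card_empty, Nat.cast_zero]
    · rw [mem_filter] at h
      have hy0 : y₀ ≠ 0 := by
        rintro rfl
        apply hw
        rw [← h.2]
        ring
      have hne : y₀ ≠ -y₀ := by
        intro h2
        have h3 : 2 * y₀ = 0 := by linear_combination h2
        rcases mul_eq_zero.1 h3 with h4 | h4
        · exact two_ne h5 h4
        · exact hy0 h4
      have h1 : (univ.filter fun y : ZMod p => y ^ 2 = w) = {y₀, -y₀} := by
        ext y
        rw [mem_filter, mem_insert, mem_singleton]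
        constructor
        · rintro ⟨-, hy⟩
          exact sq_eq_sq_iff_eq_or_eq_neg.1 (hy.trans h.2.symm)
        · rintro (rfl | rfl)
          · exact h
          · exact ⟨mem_univ _, by rw [neg_sq]; exact h.2⟩
      rw [h1, card_pair hne]
      rfl

theorem pt_card (A B : ZMod p) : (pt A B).card =
    ∑ x : ZMod p, (univ.filter fun y : ZMod p => y ^ 2 = x ^ 3 + A * x + B).card := by
  rw [card_eq_sum_card_fiberwise (f := fun P : ZMod p × ZMod p => P.1) (t := univ)
    (fun _ _ => mem_coe.2 (mem_univ _))]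
  apply sum_congr rfl
  intro x _
  apply card_bij (fun P _ => P.2)
  · intro P hP
    rw [mem_filter] at hP
    obtain ⟨h1, h2⟩ := hP
    unfold pt at h1
    rw [mem_filter] at h1
    rw [mem_filter, ← h2]
    exact ⟨mem_univ _, h1.2⟩
  · intro P hP Q hQ h
    rw [mem_filter] at hP hQ
    exact Prod.ext (hP.2.trans hQ.2.symm) h
  · intro y hy
    rw [mem_filter] at hy
    refine ⟨(x, y), ?_, rfl⟩
    rw [mem_filter]
    unfold pt
    rw [mem_filter]
    exact ⟨⟨mem_univ _, hy.2⟩, rfl⟩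

theorem parity (h5 : 5 ≤ p) (A B : ZMod p) : (pt A B).card % 2 = (rt A B).card % 2 := by
  have h1 : (((pt A B).card : ℕ) : ZMod 2) = ((rt A B).card : ℕ) := by
    rw [pt_card]
    push_cast
    simp_rw [sq_card_cast h5]
    rw [← Finset.sum_filter, sum_const, nsmul_eq_mul, mul_one]
    rfl
  exact (ZMod.natCast_eq_natCast_iff' _ _ 2).1 h1

/-- the number of solutions of `v² + 3u² = k` -/
def nc (k : ZMod p) : ℕ := (univ.filter fun P : ZMod p × ZMod p => P.1 ^ 2 + 3 * P.2 ^ 2 = k).card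

theorem nc_le (h5 : 5 ≤ p) {k k' : ZMod p} (hk : k ≠ 0) (hk' : k' ≠ 0) : nc k' ≤ nc k := by
  obtain ⟨c, s, hcs⟩ : ∃ c s : ZMod p, c ^ 2 + 3 * s ^ 2 = k / k' := by
    have hcard : Fintype.card (ZMod p) % 2 = 1 := by
      rw [ZMod.card]
      exact (Nat.Prime.eq_two_or_odd (Fact.out : p.Prime)).resolve_left (by omega)
    have h3 := three_ne h5
    obtain ⟨a, b, hab⟩ := FiniteField.exists_root_sum_quadratic (R := ZMod p)
      (f := Polynomial.X ^ 2 - Polynomial.C (k / k')) (g := Polynomial.C 3 * Polynomial.X ^ 2)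
      (Polynomial.degree_X_pow_sub_C (by norm_num) _)
      (by rw [Polynomial.degree_C_mul_X_pow 2 h3]; rfl) hcard
    refine ⟨a, b, ?_⟩
    simp only [Polynomial.eval_sub, Polynomial.eval_pow, Polynomial.eval_X, Polynomial.eval_C,
      Polynomial.eval_mul] at hab
    linear_combination hab
  have hne : c ^ 2 + 3 * s ^ 2 ≠ 0 := by
    rw [hcs]
    exact div_ne_zero hk hk'
  unfold nc
  apply card_le_card_of_injOn (fun P => (c * P.1 - 3 * s * P.2, c * P.2 + s * P.1))
  · intro P hP
    rw [mem_coe, mem_filter] at hP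
    rw [mem_coe, mem_filter]
    refine ⟨mem_univ _, ?_⟩
    have h1 : (c * P.1 - 3 * s * P.2) ^ 2 + 3 * (c * P.2 + s * P.1) ^ 2 =
        (c ^ 2 + 3 * s ^ 2) * (P.1 ^ 2 + 3 * P.2 ^ 2) := by ring
    show (c * P.1 - 3 * s * P.2) ^ 2 + 3 * (c * P.2 + s * P.1) ^ 2 = k
    rw [h1, hP.2, hcs]
    field_simp
  · intro P _ Q _ h
    simp only [Prod.mk.injEq] at h
    obtain ⟨h1, h2⟩ := h
    have e1 : (c ^ 2 + 3 * s ^ 2) * (P.1 - Q.1) = 0 := by linear_combination c * h1 + 3 * s * h2
    have e2 : (c ^ 2 + 3 * s ^ 2) * (P.2 - Q.2) = 0 := by linear_combination c * h2 - s * h1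
    have f1 := (mul_eq_zero.1 e1).resolve_left hne
    have f2 := (mul_eq_zero.1 e2).resolve_left hne
    exact Prod.ext (sub_eq_zero.1 f1) (sub_eq_zero.1 f2)

theorem nc_zero (h5 : 5 ≤ p) : nc (0 : ZMod p) ≤ 2 * p := by
  unfold nc
  rw [card_eq_sum_card_fiberwise (f := fun P : ZMod p × ZMod p => P.2) (t := univ)
    (fun _ _ => mem_coe.2 (mem_univ _))]
  have h1 : ∀ u ∈ (univ : Finset (ZMod p)), ((univ.filter fun P : ZMod p × ZMod p =>
      P.1 ^ 2 + 3 * P.2 ^ 2 = 0).filter fun P => P.2 = u).card ≤ 2 := by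
    intro u _
    refine le_trans ?_ (sq_card_le (-(3 * u ^ 2)))
    apply card_le_card_of_injOn (fun P => P.1)
    · intro P hP
      rw [mem_coe, mem_filter, mem_filter] at hP
      rw [mem_coe, mem_filter]
      refine ⟨mem_univ _, ?_⟩
      have := hP.1.2
      rw [hP.2] at this
      linear_combination this
    · intro P hP Q hQ h
      rw [mem_coe, mem_filter] at hP hQ
      exact Prod.ext h (hP.2.trans hQ.2.symm)
  refine (sum_le_sum h1).trans ?_
  rw [sum_const, card_univ, ZMod.card, smul_eq_mul, mul_comm]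

theorem nc_ge (h5 : 5 ≤ p) {k : ZMod p} (hk : k ≠ 0) : p - 2 ≤ nc k := by
  have h1 : ∑ k' : ZMod p, nc k' = p ^ 2 := by
    unfold nc
    have := card_eq_sum_card_fiberwise (s := (univ : Finset (ZMod p × ZMod p)))
      (f := fun P : ZMod p × ZMod p => P.1 ^ 2 + 3 * P.2 ^ 2) (t := univ)
      (fun _ _ => mem_coe.2 (mem_univ _))
    rw [← this, card_univ, Fintype.card_prod, ZMod.card, sq]
  have h2 : ∑ k' : ZMod p, nc k' ≤ nc (0 : ZMod p) + (p - 1) * nc k := by
    rw [← add_sum_erase univ _ (mem_univ (0 : ZMod p))]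
    apply Nat.add_le_add_left
    have h3 : ∀ k' ∈ univ.erase (0 : ZMod p), nc k' ≤ nc k := fun k' hk' =>
      nc_le h5 hk (mem_erase.1 hk').1
    refine (sum_le_sum h3).trans ?_
    rw [sum_const, card_erase_of_mem (mem_univ _), card_univ, ZMod.card, smul_eq_mul]
  rw [h1] at h2
  have h4 := nc_zero (p := p) h5
  by_contra hlt
  have h5' : nc k ≤ p - 3 := by omega
  obtain ⟨q, rfl⟩ : ∃ q, p = q + 3 := ⟨p - 3, by omega⟩
  have e1 : q + 3 - 1 = q + 2 := by omega
  have e2 : q + 3 - 3 = q := by omega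
  rw [e1] at h2
  rw [e2] at h5'
  have := Nat.mul_le_mul_left (q + 2) h5'
  nlinarith

theorem rt_le (A B : ZMod p) : (rt A B).card ≤ 3 := by
  classical
  set P : Polynomial (ZMod p) := Polynomial.X ^ 3 + (Polynomial.C A * Polynomial.X + Polynomial.C B) with hP
  have hd : (Polynomial.C A * Polynomial.X + Polynomial.C B).degree < ((3 : ℕ) : WithBot ℕ) :=
    lt_of_le_of_lt Polynomial.degree_linear_le (by norm_num)
  have hm : P.Monic := Polynomial.monic_X_pow_add hd
  have hn : P.natDegree = 3 := by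
    rw [hP, Polynomial.natDegree_add_eq_left_of_degree_lt]
    · exact Polynomial.natDegree_X_pow 3
    · rw [Polynomial.degree_X_pow]
      exact hd
  have h1 : rt A B ⊆ P.roots.toFinset := by
    intro x hx
    unfold rt at hx
    rw [mem_filter] at hx
    rw [Multiset.mem_toFinset, Polynomial.mem_roots hm.ne_zero, Polynomial.IsRoot.def, hP]
    simp only [Polynomial.eval_add, Polynomial.eval_pow, Polynomial.eval_X, Polynomial.eval_C,
      Polynomial.eval_mul]
    linear_combination hx.2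
  calc (rt A B).card ≤ P.roots.toFinset.card := card_le_card h1
    _ ≤ P.roots.card := Multiset.toFinset_card_le _
    _ ≤ P.natDegree := Polynomial.card_roots' P
    _ = 3 := hn

theorem rt_two (h5 : 5 ≤ p) {A B : ZMod p} (hD : 4 * A ^ 3 + 27 * B ^ 2 ≠ 0) : (rt A B).card ≠ 2 := by
  intro h
  obtain ⟨x, y, hxy, hs⟩ := card_eq_two.1 h
  have hx : x ∈ rt A B := by rw [hs]; simp
  have hy : y ∈ rt A B := by rw [hs]; simp
  unfold rt at hx hy
  rw [mem_filter] at hx hy
  have hx' := hx.2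
  have hy' := hy.2
  have hne : x - y ≠ 0 := sub_ne_zero.2 hxy
  have h1 : x ^ 2 + x * y + y ^ 2 + A = 0 := by
    have h2 : (x - y) * (x ^ 2 + x * y + y ^ 2 + A) = 0 := by linear_combination hx' - hy'
    exact (mul_eq_zero.1 h2).resolve_left hne
  have hA : A = -(x ^ 2 + x * y + y ^ 2) := by linear_combination h1
  have hB : B = x * y * (x + y) := by
    rw [hA] at hx'
    linear_combination hx'
  have hz : -x - y ∈ rt A B := by
    unfold rt
    rw [mem_filter]
    refine ⟨mem_univ _, ?_⟩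
    rw [hA, hB]
    ring
  rw [hs, mem_insert, mem_singleton] at hz
  rcases hz with hz | hz
  · have hy2 : y = -2 * x := by linear_combination -hz
    apply hD
    rw [hA, hB, hy2]
    ring
  · have hx2 : x = -2 * y := by linear_combination -hz
    apply hD
    rw [hA, hB, hx2]
    ring

theorem sum_rt (A : ZMod p) : ∑ B : ZMod p, (rt A B).card = p := by
  have := card_eq_sum_card_fiberwise (s := (univ : Finset (ZMod p)))
    (f := fun x : ZMod p => -(x ^ 3 + A * x)) (t := univ) (fun _ _ => mem_coe.2 (mem_univ _))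
  rw [card_univ, ZMod.card] at this
  conv_rhs => rw [this]
  apply sum_congr rfl
  intro B _
  unfold rt
  congr 1
  ext x
  rw [mem_filter, mem_filter]
  constructor
  · rintro ⟨h1, h2⟩
    exact ⟨h1, by linear_combination -h2⟩
  · rintro ⟨h1, h2⟩
    exact ⟨h1, by linear_combination -h2⟩

theorem sum_rt_sq (A : ZMod p) : ∑ B : ZMod p, (rt A B).card ^ 2 =
    (univ.filter fun P : ZMod p × ZMod p => P.1 ^ 3 + A * P.1 = P.2 ^ 3 + A * P.2).card := by
  rw [card_eq_sum_card_fiberwise (f := fun P : ZMod p × ZMod p => -(P.1 ^ 3 + A * P.1)) (t := univ)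
    (fun _ _ => mem_coe.2 (mem_univ _))]
  apply sum_congr rfl
  intro B _
  rw [sq, ← card_product]
  congr 1
  ext P
  rw [mem_product]
  unfold rt
  rw [mem_filter, mem_filter, mem_filter, mem_filter]
  constructor
  · rintro ⟨⟨-, h1⟩, -, h2⟩
    exact ⟨⟨mem_univ _, by linear_combination h1 - h2⟩, by linear_combination -h1⟩
  · rintro ⟨⟨-, h1⟩, h2⟩
    exact ⟨⟨mem_univ _, by linear_combination -h2⟩, mem_univ _, by linear_combination -h2 - h1⟩

theorem sum_rt_sq_ge (h5 : 5 ≤ p) {A : ZMod p} (hA : A ≠ 0) : 2 * p ≤ ∑ B : ZMod p, (rt A B).card ^ 2 + 4 := by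
  have h2 := two_ne h5
  have h3 := three_ne h5
  have hk : -4 * A ≠ 0 := by
    intro h
    have h4 : (2 : ZMod p) * (2 * A) = 0 := by linear_combination -h
    rcases mul_eq_zero.1 h4 with h6 | h6
    · exact h2 h6
    · rcases mul_eq_zero.1 h6 with h7 | h7
      · exact h2 h7
      · exact hA h7
  have h4 := nc_ge h5 hk
  rw [sum_rt_sq]
  set S := univ.filter fun P : ZMod p × ZMod p => P.1 ^ 3 + A * P.1 = P.2 ^ 3 + A * P.2 with hS
  set S1 := (univ : Finset (ZMod p)).image fun x => (x, x) with hS1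
  set S2 := (univ.filter fun P : ZMod p × ZMod p => P.1 ^ 2 + 3 * P.2 ^ 2 = -4 * A ∧ P.1 ≠ 0).image
    fun P => ((P.2 + P.1) / 2, (P.2 - P.1) / 2) with hS2
  have hc1 : S1.card = p := by
    rw [hS1, card_image_of_injective, card_univ, ZMod.card]
    intro x y h
    exact (Prod.mk.inj h).1
  have hc2 : S2.card = (univ.filter fun P : ZMod p × ZMod p =>
      P.1 ^ 2 + 3 * P.2 ^ 2 = -4 * A ∧ P.1 ≠ 0).card := by
    rw [hS2, card_image_of_injective]
    intro P Q h
    simp only [Prod.mk.injEq] at h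
    obtain ⟨e1, e2⟩ := h
    have f1 : P.2 + P.1 = Q.2 + Q.1 := by
      field_simp at e1
      exact e1
    have f2 : P.2 - P.1 = Q.2 - Q.1 := by
      field_simp at e2
      exact e2
    have g1 : 2 * (P.1 - Q.1) = 0 := by linear_combination f1 - f2
    have g2 : 2 * (P.2 - Q.2) = 0 := by linear_combination f1 + f2
    have i1 := (mul_eq_zero.1 g1).resolve_left h2
    have i2 := (mul_eq_zero.1 g2).resolve_left h2
    exact Prod.ext (sub_eq_zero.1 i1) (sub_eq_zero.1 i2)
  have hc3 : p - 4 ≤ S2.card := by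
    rw [hc2]
    have h6 : nc (-4 * A) ≤ (univ.filter fun P : ZMod p × ZMod p =>
        P.1 ^ 2 + 3 * P.2 ^ 2 = -4 * A ∧ P.1 ≠ 0).card +
        (univ.filter fun P : ZMod p × ZMod p => P.1 ^ 2 + 3 * P.2 ^ 2 = -4 * A ∧ P.1 = 0).card := by
      unfold nc
      rw [← card_union_of_disjoint]
      · apply card_le_card
        intro P hP
        rw [mem_filter] at hP
        rw [mem_union, mem_filter, mem_filter]
        by_cases h0 : P.1 = 0
        · exact Or.inr ⟨mem_univ _, hP.2, h0⟩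
        · exact Or.inl ⟨mem_univ _, hP.2, h0⟩
      · rw [disjoint_left]
        intro P hP hP'
        rw [mem_filter] at hP hP'
        exact hP.2.2 hP'.2.2
    have h7 : (univ.filter fun P : ZMod p × ZMod p => P.1 ^ 2 + 3 * P.2 ^ 2 = -4 * A ∧ P.1 = 0).card ≤ 2 := by
      refine le_trans ?_ (sq_card_le (-4 * A / 3))
      apply card_le_card_of_injOn (fun P => P.2)
      · intro P hP
        rw [mem_coe, mem_filter] at hP
        rw [mem_coe, mem_filter]
        refine ⟨mem_univ _, ?_⟩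
        rw [eq_div_iff h3]
        have := hP.2.1
        rw [hP.2.2] at this
        linear_combination this
      · intro P hP Q hQ h
        rw [mem_coe, mem_filter] at hP hQ
        exact Prod.ext (hP.2.2.trans hQ.2.2.symm) h
    omega
  have hdisj : Disjoint S1 S2 := by
    rw [disjoint_left]
    intro P hP hP'
    rw [hS1, mem_image] at hP
    rw [hS2, mem_image] at hP'
    obtain ⟨x, -, rfl⟩ := hP
    obtain ⟨Q, hQ, hQx⟩ := hP'
    rw [mem_filter] at hQ
    simp only [Prod.mk.injEq] at hQx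
    obtain ⟨e1, e2⟩ := hQx
    apply hQ.2.2
    have e3 : (Q.2 + Q.1) / 2 = (Q.2 - Q.1) / 2 := e1.trans e2.symm
    have e4 : Q.2 + Q.1 = Q.2 - Q.1 := by
      field_simp at e3
      exact e3
    have e5 : 2 * Q.1 = 0 := by linear_combination e4
    exact (mul_eq_zero.1 e5).resolve_left h2
  have hsub : S1 ∪ S2 ⊆ S := by
    intro P hP
    rw [hS, mem_filter]
    refine ⟨mem_univ _, ?_⟩
    rw [mem_union] at hP
    rcases hP with hP | hP
    · rw [hS1, mem_image] at hP
      obtain ⟨x, -, rfl⟩ := hP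
      rfl
    · rw [hS2, mem_image] at hP
      obtain ⟨Q, hQ, rfl⟩ := hP
      rw [mem_filter] at hQ
      have h8 := hQ.2.1
      have h9 : (8 : ZMod p) ≠ 0 := by
        have h6 : (8 : ZMod p) = 2 ^ 3 := by norm_num
        rw [h6]
        exact pow_ne_zero _ h2
      simp only
      have hx : 2 * ((Q.2 + Q.1) / 2) = Q.2 + Q.1 := by field_simp
      have hx' : 2 * ((Q.2 - Q.1) / 2) = Q.2 - Q.1 := by field_simp
      generalize (Q.2 + Q.1) / 2 = x at hx ⊢
      generalize (Q.2 - Q.1) / 2 = x' at hx' ⊢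
      have h12 : 8 * (x ^ 3 + A * x - (x' ^ 3 + A * x')) = 0 := by
        linear_combination (4 * x ^ 2 + 2 * x * (Q.2 + Q.1) + (Q.2 + Q.1) ^ 2 + 4 * A) * hx -
          (4 * x' ^ 2 + 2 * x' * (Q.2 - Q.1) + (Q.2 - Q.1) ^ 2 + 4 * A) * hx' + 2 * Q.1 * h8
      exact sub_eq_zero.1 ((mul_eq_zero.1 h12).resolve_left h9)
  have h10 := card_le_card hsub
  rw [card_union_of_disjoint hdisj, hc1] at h10
  omega

/-- many classes without a root -/
theorem none_ge (h5 : 5 ≤ p) {A : ZMod p} (hA : A ≠ 0) :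
    p ≤ 3 * (univ.filter fun B : ZMod p => (rt A B).card = 0).card + 4 := by
  have h1 := sum_rt_sq_ge h5 hA
  have h2 : ∀ B ∈ (univ : Finset (ZMod p)), (rt A B).card ^ 2 + 3 ≤
      4 * (rt A B).card + 3 * (if (rt A B).card = 0 then 1 else 0) := by
    intro B _
    have h3 := rt_le A B
    generalize (rt A B).card = r at h3 ⊢
    interval_cases r <;> simp
  have h3 := sum_le_sum h2
  rw [sum_add_distrib, sum_add_distrib, ← mul_sum, ← mul_sum, sum_rt, sum_const, card_univ, ZMod.card,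
    smul_eq_mul, ← card_filter] at h3
  omega

/-- many classes with a root -/
theorem some_ge (h5 : 5 ≤ p) {A : ZMod p} :
    p ≤ 3 * (univ.filter fun B : ZMod p => (rt A B).card ≠ 0 ∧ 4 * A ^ 3 + 27 * B ^ 2 ≠ 0).card + 6 := by
  have h1 : ∀ B ∈ (univ : Finset (ZMod p)), (rt A B).card ≤ 3 * (if (rt A B).card ≠ 0 then 1 else 0) := by
    intro B _
    have h3 := rt_le A B
    split_ifs with h
    · omega
    · rw [not_not] at h
      omega
  have h2 := sum_le_sum h1
  rw [← mul_sum, sum_rt, ← card_filter] at h2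
  have h3 : (univ.filter fun B : ZMod p => (rt A B).card ≠ 0).card ≤
      (univ.filter fun B : ZMod p => (rt A B).card ≠ 0 ∧ 4 * A ^ 3 + 27 * B ^ 2 ≠ 0).card +
      (univ.filter fun B : ZMod p => 4 * A ^ 3 + 27 * B ^ 2 = 0).card := by
    refine le_trans (card_le_card ?_) (card_union_le _ _)
    intro B hB
    rw [mem_filter] at hB
    rw [mem_union, mem_filter, mem_filter]
    by_cases h0 : 4 * A ^ 3 + 27 * B ^ 2 = 0
    · exact Or.inr ⟨mem_univ _, h0⟩
    · exact Or.inl ⟨mem_univ _, hB.2, h0⟩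
  have h4 : (univ.filter fun B : ZMod p => 4 * A ^ 3 + 27 * B ^ 2 = 0).card ≤ 2 := by
    refine le_trans (card_le_card ?_) (sq_card_le (-4 * A ^ 3 / 27))
    intro B hB
    rw [mem_filter] at hB
    rw [mem_filter]
    refine ⟨mem_univ _, ?_⟩
    have h27 : (27 : ZMod p) ≠ 0 := by
      have h3 := three_ne h5
      have h6 : (27 : ZMod p) = 3 ^ 3 := by norm_num
      rw [h6]
      exact pow_ne_zero _ h3
    rw [eq_div_iff h27]
    linear_combination hB.2
  omega

theorem disc_of_none (h5 : 5 ≤ p) {A B : ZMod p} (hA : A ≠ 0) (h : (rt A B).card = 0) :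
    4 * A ^ 3 + 27 * B ^ 2 ≠ 0 := by
  intro hD
  have h2 := two_ne h5
  have h1 : -3 * B / (2 * A) ∈ rt A B := by
    unfold rt
    rw [mem_filter]
    refine ⟨mem_univ _, ?_⟩
    have h3 : (-3 * B / (2 * A)) ^ 3 + A * (-3 * B / (2 * A)) + B =
        -B * (4 * A ^ 3 + 27 * B ^ 2) / (8 * A ^ 3) := by
      have h8 : (8 : ZMod p) ≠ 0 := by
        have h6 : (8 : ZMod p) = 2 ^ 3 := by norm_num
        rw [h6]
        exact pow_ne_zero _ h2
      field_simp
      ring
    rw [h3, hD, mul_zero, zero_div]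
  rw [card_eq_zero] at h
  rw [h] at h1
  exact absurd h1 (notMem_empty _)

/-- the classes which separate from a given parity -/
theorem exists_om (h11 : 11 ≤ p) {A : ZMod p} (hA : A ≠ 0) (e : ℕ) : ∃ Om : Finset (ZMod p),
    p ≤ 12 * Om.card ∧ ∀ B ∈ Om, 4 * A ^ 3 + 27 * B ^ 2 ≠ 0 ∧ (pt A B).card % 2 ≠ e % 2 := by
  have h5 : 5 ≤ p := by omega
  rcases Nat.mod_two_eq_zero_or_one e with he | he
  · -- a root is needed
    refine ⟨univ.filter fun B : ZMod p => (rt A B).card ≠ 0 ∧ 4 * A ^ 3 + 27 * B ^ 2 ≠ 0, ?_, ?_⟩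
    · have := some_ge (p := p) h5 (A := A)
      omega
    · intro B hB
      rw [mem_filter] at hB
      obtain ⟨-, h1, h2⟩ := hB
      refine ⟨h2, ?_⟩
      rw [parity h5, he]
      have h3 := rt_le A B
      have h4 := rt_two h5 h2
      omega
  · refine ⟨univ.filter fun B : ZMod p => (rt A B).card = 0, ?_, ?_⟩
    · have := none_ge h5 hA
      omega
    · intro B hB
      rw [mem_filter] at hB
      refine ⟨disc_of_none h5 hA hB.2, ?_⟩
      rw [parity h5, he, hB.2]
      omega

end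

end Pool.Agent.Y673.LG
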