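import Pool.Agent.Y673.LG.Sv2
import Pool.Agent.Y673.LG.Nt

/-!
Counting the curves which are not separated from a given curve by a small prime (helper673).
-/

set_option autoImplicit false

namespace Pool.Agent.Y673.LG

open Finset

/-- the number of points of the curve `y² = x³ + Ax + B` over the field with `p` elements -/
noncomputable def npts (p : ℕ) (A B : ℤ) : ℕ :=
  1 + Nat.card {P : ZMod p × ZMod p // P.2 ^ 2 = P.1 ^ 3 + (A : ZMod p) * P.1 + (B : ZMod p)}

/-- a prime at most `Y` separates the two curves -/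
def Sepd (Y : ℝ) (A B A' B' : ℤ) : Prop :=
  ∃ p : ℕ, p.Prime ∧ 5 ≤ p ∧ (p : ℝ) ≤ Y ∧ ¬ (p : ℤ) ∣ 4 * A ^ 3 + 27 * B ^ 2 ∧
    ¬ (p : ℤ) ∣ 4 * A' ^ 3 + 27 * B' ^ 2 ∧ npts p A B ≠ npts p A' B'

theorem npts_eq {p : ℕ} [Fact p.Prime] (A B : ℤ) : npts p A B = 1 + (pt (A : ZMod p) (B : ZMod p)).card := by
  unfold npts pt
  rw [Nat.card_eq_fintype_card, Fintype.card_subtype]

theorem exists_blocks (m k : ℕ) : ∀ P : Finset ℕ, k * m ≤ P.card → ∃ B : Fin k → Finset ℕ,
    (∀ i, B i ⊆ P ∧ (B i).card = m) ∧ ∀ i j, ∀ p, p ∈ B i → p ∈ B j → i = j := by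
  induction k with
  | zero => intro P _; exact ⟨fun _ => ∅, fun i => i.elim0, fun i => i.elim0⟩
  | succ k ih =>
    intro P hP
    obtain ⟨s, hs, hsc⟩ := exists_subset_card_eq (s := P) (n := m) (by nlinarith)
    have h1 : k * m ≤ (P \ s).card := by
      rw [card_sdiff_of_subset hs, hsc]
      have : (k + 1) * m = k * m + m := by ring
      omega
    obtain ⟨B, hB, hd⟩ := ih (P \ s) h1
    refine ⟨Fin.cons s B, ?_, ?_⟩
    · intro i
      refine Fin.cases ?_ (fun j => ?_) i
      · exact ⟨hs, hsc⟩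
      · exact ⟨(hB j).1.trans sdiff_subset, (hB j).2⟩
    · intro i j p
      refine Fin.cases ?_ (fun i' => ?_) i
      · refine Fin.cases ?_ (fun j' => ?_) j
        · intro _ _; rfl
        · intro h2 h3
          exact absurd h2 (mem_sdiff.1 ((hB j').1 h3)).2
      · refine Fin.cases ?_ (fun j' => ?_) j
        · intro h2 h3
          exact absurd h3 (mem_sdiff.1 ((hB i').1 h2)).2
        · intro h2 h3
          rw [hd i' j' p h2 h3]

theorem count_B {A A' B' : ℤ} {Y : ℝ} {M k m y : ℕ} (hy : 1 ≤ y) (hyY : (y : ℝ) ≤ Y) (P : Finset ℕ)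
    (hP : ∀ p ∈ P, p.Prime ∧ 11 ≤ p ∧ p ≤ y ∧ ¬ (p : ℤ) ∣ A ∧ ¬ (p : ℤ) ∣ 4 * A' ^ 3 + 27 * B' ^ 2)
    (hcard : k * m ≤ P.card) (S : Finset ℤ) (hS : ∀ B ∈ S, |B| ≤ M ∧ ¬ Sepd Y A B A' B') :
    ((m : ℝ) * (1 / 12)) ^ k * S.card ≤ 6 * (((2 * M + 1 : ℕ) : ℝ) + ((y : ℝ) ^ k) ^ 2) := by
  classical
  obtain ⟨Bl, hBl, hd⟩ := exists_blocks m k P hcard
  set f : ℤ → ℕ := fun B => (B + (M + 1)).toNat with hf
  have hfc : ∀ B ∈ S, ((f B : ℕ) : ℤ) = B + (M + 1) := by
    intro B hB
    rw [hf]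
    have := (hS B hB).1
    rw [abs_le] at this
    rw [Int.toNat_of_nonneg (by omega)]
  have hinj : Set.InjOn f S := by
    intro B hB B₁ hB₁ h
    have h1 := hfc B hB
    have h2 := hfc B₁ hB₁
    have h3 : ((f B : ℕ) : ℤ) = ((f B₁ : ℕ) : ℤ) := by rw [h]
    omega
  have hc : (S.image f).card = S.card := card_image_of_injOn hinj
  have hsub : S.image f ⊆ Icc 1 (2 * M + 1) := by
    intro n hn
    obtain ⟨B, hB, rfl⟩ := mem_image.1 hn
    have h1 := hfc B hB
    have h2 := (hS B hB).1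
    rw [abs_le] at h2
    rw [mem_Icc]
    constructor <;> omega
  have h := sieve (N := 2 * M + 1) (k := k) (y := y) (m := m) hy (h := 1 / 12) (by norm_num) Bl
    (fun i => (hBl i).2.ge) (fun i p hp => ⟨(hP p ((hBl i).1 hp)).1, (hP p ((hBl i).1 hp)).2.2.1⟩) hd
    (S.image f) hsub (by
      intro i p hp
      obtain ⟨hpp, h11, hpy, hpA, hpD⟩ := hP p ((hBl i).1 hp)
      haveI : Fact p.Prime := ⟨hpp⟩
      have hA : (A : ZMod p) ≠ 0 := by
        rw [Ne, ZMod.intCast_zmod_eq_zero_iff_dvd]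
        exact hpA
      obtain ⟨Om, h1, h2⟩ := exists_om h11 hA (pt (A' : ZMod p) (B' : ZMod p)).card
      refine ⟨Om.image fun v => v + ((M + 1 : ℕ) : ZMod p), ?_, ?_⟩
      · rw [card_image_of_injective _ (add_left_injective _)]
        have hp0 : (0 : ℝ) < p := by exact_mod_cast hpp.pos
        rw [le_div_iff₀ hp0]
        have : (p : ℝ) ≤ 12 * Om.card := by exact_mod_cast h1
        linarith
      · intro n hn hmem
        obtain ⟨B, hB, rfl⟩ := mem_image.1 hn
        obtain ⟨v, hv, hvn⟩ := mem_image.1 hmem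
        have h3 := hfc B hB
        have h4 : v = (B : ZMod p) := by
          have h5 : ((f B : ℕ) : ZMod p) = (B : ZMod p) + ((M + 1 : ℕ) : ZMod p) := by
            have h6 : (((f B : ℕ) : ℤ) : ZMod p) = ((B + (M + 1) : ℤ) : ZMod p) := by rw [h3]
            push_cast at h6 ⊢
            exact h6
          rw [h5] at hvn
          exact add_right_cancel hvn
        obtain ⟨h7, h8⟩ := h2 v hv
        rw [h4] at h7 h8
        apply (hS B hB).2
        refine ⟨p, hpp, by omega, ?_, ?_, hpD, ?_⟩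
        · have : (p : ℝ) ≤ y := by exact_mod_cast hpy
          linarith
        · intro hdv
          apply h7
          have := (ZMod.intCast_zmod_eq_zero_iff_dvd (4 * A ^ 3 + 27 * B ^ 2) p).2 hdv
          push_cast at this
          exact this
        · rw [npts_eq, npts_eq]
          intro he
          apply h8
          omega)
  rw [hc] at h
  exact h

/-- the number of prime divisors -/
theorem omega_le {n : ℕ} (hn : n ≠ 0) : (n.primeFactors.card : ℝ) ≤ 2 * Real.log n := by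
  have h1 : 2 ^ n.primeFactors.card ≤ n := by
    calc 2 ^ n.primeFactors.card = ∏ _p ∈ n.primeFactors, 2 := by rw [prod_const]
      _ ≤ ∏ p ∈ n.primeFactors, p := prod_le_prod' fun p hp => (Nat.prime_of_mem_primeFactors hp).two_le
      _ ≤ n := Nat.le_of_dvd (Nat.pos_of_ne_zero hn) (Nat.prod_primeFactors_dvd n)
  have h2 : (2 : ℝ) ^ n.primeFactors.card ≤ n := by exact_mod_cast h1
  have h3 := Real.log_le_log (by positivity) h2
  rw [Real.log_pow] at h3
  have h4 : (1 / 2 : ℝ) ≤ Real.log 2 := by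
    have := Real.log_two_gt_d9
    linarith
  nlinarith [(Nat.cast_nonneg n.primeFactors.card : (0 : ℝ) ≤ _)]

theorem primes_ge {A D : ℤ} (hA : A ≠ 0) (hD : D ≠ 0) (y : ℕ) : ∃ P : Finset ℕ,
    (∀ p ∈ P, p.Prime ∧ 11 ≤ p ∧ p ≤ y ∧ ¬ (p : ℤ) ∣ A ∧ ¬ (p : ℤ) ∣ D) ∧
      (Nat.primeCounting y : ℝ) ≤ P.card + 11 + 2 * Real.log |(A : ℝ)| + 2 * Real.log |(D : ℝ)| := by
  classical
  set Q := (range (y + 1)).filter Nat.Prime with hQ
  have hQc : Q.card = Nat.primeCounting y := by
    rw [hQ, Nat.primeCounting, Nat.primeCounting', Nat.count_eq_card_filter_range]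
  set P : Finset ℕ := Q.filter fun p : ℕ => 11 ≤ p ∧ ¬ (p : ℤ) ∣ A ∧ ¬ (p : ℤ) ∣ D with hP
  refine ⟨P, ?_, ?_⟩
  · intro p hp
    rw [hP, mem_filter, hQ, mem_filter, mem_range] at hp
    obtain ⟨⟨h1, h2⟩, h3, h4, h5⟩ := hp
    exact ⟨h2, h3, by omega, h4, h5⟩
  · have h1 : Q ⊆ P ∪ (range 11 ∪ (A.natAbs.primeFactors ∪ D.natAbs.primeFactors)) := by
      intro p hp
      have hpp : p.Prime := by
        rw [hQ, mem_filter] at hp
        exact hp.2
      rw [mem_union, mem_union, mem_union]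
      by_cases h2 : 11 ≤ p
      · by_cases h3 : (p : ℤ) ∣ A
        · right; right; left
          rw [Nat.mem_primeFactors]
          exact ⟨hpp, Int.natCast_dvd.1 h3, Int.natAbs_ne_zero.2 hA⟩
        · by_cases h4 : (p : ℤ) ∣ D
          · right; right; right
            rw [Nat.mem_primeFactors]
            exact ⟨hpp, Int.natCast_dvd.1 h4, Int.natAbs_ne_zero.2 hD⟩
          · left
            rw [hP, mem_filter]
            exact ⟨hp, h2, h3, h4⟩
      · right; left
        rw [mem_range]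
        omega
    have h2 := (card_le_card h1).trans ((card_union_le _ _).trans (Nat.add_le_add_left
      ((card_union_le _ _).trans (Nat.add_le_add_left (card_union_le _ _) _)) _))
    rw [hQc, card_range] at h2
    have h3 := omega_le (Int.natAbs_ne_zero.2 hA)
    have h4 := omega_le (Int.natAbs_ne_zero.2 hD)
    rw [Nat.cast_natAbs, Int.cast_abs] at h3 h4
    have h5 : (Nat.primeCounting y : ℝ) ≤ (P.card : ℝ) + (11 + ((A.natAbs.primeFactors.card : ℝ) +
        (D.natAbs.primeFactors.card : ℝ))) := by exact_mod_cast h2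
    linarith

theorem pi_ge {y : ℕ} (hy : 20 ≤ y) {s : ℝ} (hs : 0 < s) :
    s / 4 * (y : ℝ) ^ (1 - s) ≤ (Nat.primeCounting y : ℝ) := by
  have hyr : (20 : ℝ) ≤ y := by exact_mod_cast hy
  have hy0 : (0 : ℝ) < y := by linarith
  have h1 := Chebyshev.psi_ge y
  have h2 := Chebyshev.psi_le_primeCounting_mul_log y
  have h3 : Real.log (y + 1) ≤ (y : ℝ) / 4 := by
    have h4 : Real.log (y + 1) ≤ Real.log (2 * y) := Real.log_le_log (by linarith) (by linarith)
    have h5 : Real.log (2 * (y : ℝ)) = Real.log 8 + Real.log (y / 4) := by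
      rw [← Real.log_mul (by norm_num) (by positivity)]
      congr 1
      ring
    have h6 : Real.log ((y : ℝ) / 4) ≤ y / 4 / 2.7 := by
      have h7 := Real.log_le_sub_one_of_pos (x := (y : ℝ) / 4 / 2.7) (by positivity)
      have h8 : Real.log ((y : ℝ) / 4) = Real.log ((y : ℝ) / 4 / 2.7) + Real.log 2.7 := by
        rw [← Real.log_mul (by positivity) (by norm_num)]
        congr 1
        field_simp
      have h9 : Real.log 2.7 ≤ 1 := by
        rw [Real.log_le_iff_le_exp (by norm_num)]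
        have := Real.exp_one_gt_d9
        linarith
      linarith
    have h7 : Real.log 8 ≤ 2.1 := by
      have : (8 : ℝ) = 2 ^ 3 := by norm_num
      rw [this, Real.log_pow]
      have := Real.log_two_lt_d9
      push_cast
      linarith
    rw [h5] at h4
    norm_num at h6 h7 ⊢
    linarith
  have h4 : (0.69 : ℝ) ≤ Real.log 2 := by
    have := Real.log_two_gt_d9
    linarith
  have h5 : (y : ℝ) / 4 ≤ Nat.primeCounting y * Real.log y := by
    norm_num at h4
    nlinarith
  have h6 := Real.log_le_rpow_div hy0.le hs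
  have h7 : (0 : ℝ) ≤ Nat.primeCounting y := Nat.cast_nonneg _
  have h8 : (y : ℝ) / 4 ≤ Nat.primeCounting y * ((y : ℝ) ^ s / s) :=
    h5.trans (mul_le_mul_of_nonneg_left h6 h7)
  have hps : (0 : ℝ) < (y : ℝ) ^ s := Real.rpow_pos_of_pos hy0 s
  rw [Real.rpow_sub hy0, Real.rpow_one]
  rw [mul_div_assoc', div_le_iff₀ hps]
  have h9 : s * ((y : ℝ) / 4) ≤ s * (Nat.primeCounting y * ((y : ℝ) ^ s / s)) :=
    mul_le_mul_of_nonneg_left h8 hs.le
  have h10 : s * (Nat.primeCounting y * ((y : ℝ) ^ s / s)) = Nat.primeCounting y * (y : ℝ) ^ s := by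
    field_simp
  rw [h10] at h9
  linarith

end Pool.Agent.Y673.LG
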