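import Pool.Agent.Y673.LG.Cn

/-!
The final count of the curves which are not separated (helper673).
-/

set_option autoImplicit false

namespace Pool.Agent.Y673.LG

open Finset

theorem asy {α η ε R : ℝ} (hα : 1 < α) (hη : 0 < η) (hε : 0 < ε) :
    ∃ L₀ : ℝ, 4 ≤ L₀ ∧ ∀ L, L₀ ≤ L → 40 ≤ L ^ α ∧ R ≤ L ^ (η / 2) ∧
      α * Real.log L ≤ ε / 2 * L := by
  have h1 := (tendsto_rpow_atTop (show 0 < α by linarith)).eventually_ge_atTop 40
  have h2 := (tendsto_rpow_atTop (show 0 < η / 2 by linarith)).eventually_ge_atTop R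
  have h3 := Real.isLittleO_log_id_atTop.bound (show 0 < ε / (2 * α) by positivity)
  obtain ⟨L₀, hL⟩ := Filter.eventually_atTop.1 (h1.and (h2.and h3))
  refine ⟨max L₀ 4, le_max_right _ _, fun L hL' => ?_⟩
  have hL0 : L₀ ≤ L := (le_max_left _ _).trans hL'
  have hL4 : 4 ≤ L := (le_max_right _ _).trans hL'
  obtain ⟨a, b, c⟩ := hL L hL0
  refine ⟨a, b, ?_⟩
  have e1 : ‖Real.log L‖ = Real.log L := by
    rw [Real.norm_eq_abs, abs_of_nonneg (Real.log_nonneg (by linarith))]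
  have e2 : ‖id L‖ = L := by
    rw [id, Real.norm_eq_abs, abs_of_nonneg (by linarith)]
  rw [e1, e2] at c
  have hα0 : 0 < α := by linarith
  calc α * Real.log L ≤ α * (ε / (2 * α) * L) := mul_le_mul_of_nonneg_left c hα0.le
    _ = ε / 2 * L := by field_simp

/-- the number of primes -/
theorem pi_large {α η s K L : ℝ} {y : ℕ} (hL4 : 4 ≤ L) (hs0 : 0 < s) (hs1 : s < 1)
    (hsα : α * s = η / 2) (g1 : 40 ≤ L ^ α) (hyL' : L ^ α < y + 1)
    (hy40 : 40 ≤ y) (hK0 : 0 ≤ K) (g2 : 8 * K / s ≤ L ^ (η / 2)) :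
    K * (L ^ (α - 1 - η) * L) ≤ (Nat.primeCounting y : ℝ) := by
  have hLpos : 0 < L := by linarith
  have hpi := pi_ge (y := y) (by omega) hs0
  have hG0 : 0 ≤ L ^ (α - 1 - η) := by positivity
  have e1 : L ^ α / 2 ≤ y := by linarith
  have e2 : (L ^ α / 2) ^ (1 - s) ≤ (y : ℝ) ^ (1 - s) :=
    Real.rpow_le_rpow (by positivity) e1 (by linarith)
  have e3 : (L ^ α / 2) ^ (1 - s) = L ^ (α * (1 - s)) * (1 / 2 : ℝ) ^ (1 - s) := by
    rw [div_eq_mul_one_div, Real.mul_rpow (by positivity) (by norm_num), ← Real.rpow_mul hLpos.le]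
  have e4 : (1 / 2 : ℝ) ≤ (1 / 2 : ℝ) ^ (1 - s) := by
    have := Real.rpow_le_rpow_of_exponent_ge (x := (1 / 2 : ℝ)) (by norm_num) (by norm_num)
      (show 1 - s ≤ 1 by linarith)
    rwa [Real.rpow_one] at this
  have e5 : L ^ (α * (1 - s)) = L ^ (α - 1 - η) * L * L ^ (η / 2) := by
    have f1 : L ^ (α - 1 - η) * L = L ^ (α - 1 - η) * L ^ (1 : ℝ) := by rw [Real.rpow_one]
    rw [f1, ← Real.rpow_add hLpos, ← Real.rpow_add hLpos]
    congr 1
    rw [mul_sub, hsα]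
    ring
  rw [e3, e5] at e2
  set G := L ^ (α - 1 - η)
  have hGL : 0 ≤ G * L := mul_nonneg hG0 hLpos.le
  have e6 : G * L * (8 * K / s) * (1 / 2) ≤ (y : ℝ) ^ (1 - s) := by
    refine le_trans ?_ e2
    have f1 : G * L * (8 * K / s) ≤ G * L * L ^ (η / 2) := mul_le_mul_of_nonneg_left g2 hGL
    have f2 : 0 ≤ G * L * (8 * K / s) := by positivity
    exact mul_le_mul f1 e4 (by norm_num) (f2.trans f1)
  have e7 : K * (G * L) = s / 4 * (G * L * (8 * K / s) * (1 / 2)) := by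
    field_simp
    ring
  rw [e7]
  exact (mul_le_mul_of_nonneg_left e6 (by positivity)).trans hpi

theorem logD {κ : ℕ} {X : ℝ} (hX : 1 ≤ X) {A' B' : ℤ} (hA' : |(A' : ℝ)| ≤ X ^ κ)
    (hB' : |(B' : ℝ)| ≤ X ^ κ) (hD : 4 * A' ^ 3 + 27 * B' ^ 2 ≠ 0) :
    Real.log |((4 * A' ^ 3 + 27 * B' ^ 2 : ℤ) : ℝ)| ≤ 4 + 3 * κ * Real.log X := by
  have hX0 : 0 < X := by linarith
  have h1 : (0 : ℝ) < |((4 * A' ^ 3 + 27 * B' ^ 2 : ℤ) : ℝ)| := abs_pos.2 (Int.cast_ne_zero.2 hD)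
  have hXκ : 1 ≤ X ^ κ := one_le_pow₀ hX
  have h2 : |((4 * A' ^ 3 + 27 * B' ^ 2 : ℤ) : ℝ)| ≤ 31 * (X ^ κ) ^ 3 := by
    push_cast
    refine (abs_add_le _ _).trans ?_
    rw [abs_mul, abs_mul, abs_pow, abs_pow]
    have a1 : |(A' : ℝ)| ^ 3 ≤ (X ^ κ) ^ 3 := pow_le_pow_left₀ (abs_nonneg _) hA' 3
    have a2 : |(B' : ℝ)| ^ 2 ≤ (X ^ κ) ^ 2 := pow_le_pow_left₀ (abs_nonneg _) hB' 2
    have a5 : (X ^ κ) ^ 2 ≤ (X ^ κ) ^ 3 := pow_le_pow_right₀ hXκ (by norm_num)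
    have a3 : |(4 : ℝ)| = 4 := by norm_num
    have a4 : |(27 : ℝ)| = 27 := by norm_num
    rw [a3, a4]
    linarith
  have h3 := Real.log_le_log h1 h2
  rw [Real.log_mul (by norm_num) (by positivity), Real.log_pow, Real.log_pow] at h3
  have h4 : Real.log 31 ≤ 4 := by
    rw [Real.log_le_iff_le_exp (by norm_num)]
    have h5 : Real.exp 4 = Real.exp 1 ^ 4 := by
      rw [← Real.exp_nat_mul]
      norm_num
    rw [h5]
    have h6 := Real.exp_one_gt_d9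
    have h7 : (2.7 : ℝ) ^ 4 ≤ Real.exp 1 ^ 4 := pow_le_pow_left₀ (by norm_num) (by linarith) 4
    norm_num at h7 ⊢
    linarith
  have h8 : ((3 : ℕ) : ℝ) = 3 := by norm_num
  rw [h8] at h3
  linarith

/-- the growth of the main term -/
theorem growG {α η ε L : ℝ} {k y : ℕ} (hα : 1 < α) (hη0 : 0 < η) (hη1 : η ≤ α - 1)
    (hη2 : η ≤ ε / 3) (hL4 : 4 ≤ L) (hy0 : (0 : ℝ) < y) (hly0 : 0 < Real.log y)
    (hyL : (y : ℝ) ≤ L ^ α) (hk2 : 1 / 2 * L < (k + 1) * Real.log y)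
    (g3 : α * Real.log L ≤ ε / 2 * L) :
    Real.exp ((1 / 2 * (1 - 1 / α) - ε) * L) ≤ (L ^ (α - 1 - η)) ^ k := by
  have hLpos : 0 < L := by linarith
  have hα0 : 0 < α := by linarith
  have hk0 : (0 : ℝ) ≤ k := Nat.cast_nonneg _
  have h1 : (L ^ (α - 1 - η)) ^ k = Real.exp (k * ((α - 1 - η) * Real.log L)) := by
    rw [Real.rpow_def_of_pos hLpos, ← Real.exp_nat_mul]
    congr 1
    ring
  rw [h1]
  apply Real.exp_le_exp.2
  have h2 : Real.log y ≤ α * Real.log L := by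
    have := Real.log_le_log hy0 hyL
    rwa [Real.log_rpow hLpos] at this
  set θ : ℝ := (α - 1 - η) / α with hθ
  have hθ0 : 0 ≤ θ := div_nonneg (by linarith) hα0.le
  have hθ1 : θ ≤ 1 := by
    rw [hθ, div_le_one hα0]
    linarith
  have h3 : θ * (k * Real.log y) ≤ k * ((α - 1 - η) * Real.log L) := by
    have f1 : k * Real.log y ≤ k * (α * Real.log L) := mul_le_mul_of_nonneg_left h2 hk0
    refine (mul_le_mul_of_nonneg_left f1 hθ0).trans (le_of_eq ?_)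
    rw [hθ]
    field_simp
  have h4 : θ * (1 / 2 * L - Real.log y) ≤ θ * (k * Real.log y) :=
    mul_le_mul_of_nonneg_left (by linarith) hθ0
  have h5 : 1 / 2 * (1 - 1 / α) - ε / 2 ≤ 1 / 2 * θ := by
    have e1 : θ = 1 - 1 / α - η / α := by
      rw [hθ]
      field_simp
    have e2 : η / α ≤ η := div_le_self hη0.le hα.le
    rw [e1]
    linarith
  have h6 : θ * Real.log y ≤ ε / 2 * L :=
    ((mul_le_mul_of_nonneg_right hθ1 hly0.le).trans (by rw [one_mul]; exact h2)).trans g3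
  have h7 : (1 / 2 * (1 - 1 / α) - ε / 2) * L ≤ 1 / 2 * θ * L :=
    mul_le_mul_of_nonneg_right h5 hLpos.le
  have h8 : θ * (1 / 2 * L - Real.log y) = 1 / 2 * θ * L - θ * Real.log y := by ring
  have h9 : (1 / 2 * (1 - 1 / α) - ε) * L = (1 / 2 * (1 - 1 / α) - ε / 2) * L - ε / 2 * L := by ring
  linarith

theorem one_A {α ε : ℝ} (hα : 1 < α) (hε : 0 < ε) (κ : ℕ) : ∃ X₀ : ℝ, 1 ≤ X₀ ∧ ∀ X, X₀ ≤ X →
    ∀ A A' B' : ℤ, A ≠ 0 → |(A : ℝ)| ≤ X ^ κ → |(A' : ℝ)| ≤ X ^ κ → |(B' : ℝ)| ≤ X ^ κ →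
      4 * A' ^ 3 + 27 * B' ^ 2 ≠ 0 → ∀ S : Finset ℤ,
        (∀ B ∈ S, |(B : ℝ)| ≤ X ∧ ¬ Sepd (Real.log X ^ α) A B A' B') →
          (S.card : ℝ) ≤ 24 * X ^ (1 / 2 + 1 / (2 * α) + ε) := by
  set η : ℝ := min (α - 1) (ε / 3) with hη
  have hη0 : 0 < η := lt_min (by linarith) (by linarith)
  have hη1 : η ≤ α - 1 := min_le_left _ _
  have hη2 : η ≤ ε / 3 := min_le_right _ _
  have hα0 : 0 < α := by linarith
  set s : ℝ := η / (2 * α) with hs
  have hs0 : 0 < s := by positivity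
  have hs1 : s < 1 := by
    rw [hs, div_lt_one (by positivity)]
    linarith
  have hsα : α * s = η / 2 := by
    rw [hs]
    field_simp
  obtain ⟨L₀, hL₀, hL⟩ := asy (α := α) (η := η) (ε := ε) (R := 8 * (32 + 8 * (κ : ℝ)) / s) hα hη0 hε
  refine ⟨Real.exp L₀, Real.one_le_exp (by linarith), ?_⟩
  intro X hX A A' B' hA hAX hAX' hBX' hD S hS
  have hX0 : 0 < X := lt_of_lt_of_le (Real.exp_pos _) hX
  set L := Real.log X with hLdef
  have hXL : X = Real.exp L := by rw [hLdef, Real.exp_log hX0]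
  have hLL : L₀ ≤ L := by
    rw [hLdef, ← Real.log_exp L₀]
    exact Real.log_le_log (Real.exp_pos _) hX
  have hL4 : 4 ≤ L := hL₀.trans hLL
  have hLpos : 0 < L := by linarith
  have hX1 : 1 ≤ X := by rw [hXL]; exact Real.one_le_exp hLpos.le
  obtain ⟨g1, g2, g3⟩ := hL L hLL
  set y := ⌊L ^ α⌋₊ with hy
  have hyL : (y : ℝ) ≤ L ^ α := Nat.floor_le (by positivity)
  have hyL' : L ^ α < y + 1 := Nat.lt_floor_add_one _
  have hy40 : 40 ≤ y := Nat.le_floor (by exact_mod_cast g1)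
  have hyr : (40 : ℝ) ≤ y := by exact_mod_cast hy40
  have hy0 : (0 : ℝ) < y := by linarith
  have hpi2 := pi_large (K := 32 + 8 * (κ : ℝ)) hL4 hs0 hs1 hsα g1 hyL' hy40 (by positivity) g2
  set G : ℝ := L ^ (α - 1 - η) with hG
  have hG1 : 1 ≤ G := Real.one_le_rpow (by linarith) (by linarith)
  set m := ⌈12 * G⌉₊ with hm
  have hm1 : 12 * G ≤ m := Nat.le_ceil _
  have hm2 : (m : ℝ) < 12 * G + 1 := Nat.ceil_lt_add_one (by positivity)
  have hly : 1 / 2 ≤ Real.log y := by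
    rw [Real.le_log_iff_exp_le hy0]
    have h1 : Real.exp (1 / 2) ≤ Real.exp 1 := Real.exp_le_exp.2 (by norm_num)
    have h2 := Real.exp_one_lt_d9
    linarith
  set k := ⌊1 / 2 * L / Real.log y⌋₊ with hk
  have hly0 : 0 < Real.log y := by linarith
  have hk1 : (k : ℝ) * Real.log y ≤ 1 / 2 * L := by
    have := Nat.floor_le (show 0 ≤ 1 / 2 * L / Real.log y by positivity)
    rw [← hk, le_div_iff₀ hly0] at this
    exact this
  have hk2 : 1 / 2 * L < (k + 1) * Real.log y := by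
    have := Nat.lt_floor_add_one (1 / 2 * L / Real.log y)
    rw [← hk, div_lt_iff₀ hly0] at this
    exact this
  have hk0 : (0 : ℝ) ≤ k := Nat.cast_nonneg _
  have hk3 : (k : ℝ) ≤ L := by nlinarith
  obtain ⟨P, hP, hPc⟩ := primes_ge hA hD y
  have hlogA : Real.log |(A : ℝ)| ≤ κ * L := by
    have h1 : (0 : ℝ) < |(A : ℝ)| := abs_pos.2 (Int.cast_ne_zero.2 hA)
    have := Real.log_le_log h1 hAX
    rwa [Real.log_pow] at this
  have hlogD := logD hX1 hAX' hBX' hD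
  rw [← hLdef] at hlogD
  have hGL : L ≤ G * L := by nlinarith
  have hκ0 : (0 : ℝ) ≤ κ := Nat.cast_nonneg _
  have hkm : k * m ≤ P.card := by
    have h1 : (k : ℝ) * m ≤ P.card := by
      have h2 : (k : ℝ) * m ≤ L * (12 * G + 1) := by
        have hm0 : (0 : ℝ) ≤ m := Nat.cast_nonneg _
        calc (k : ℝ) * m ≤ L * m := mul_le_mul_of_nonneg_right hk3 hm0
          _ ≤ L * (12 * G + 1) := mul_le_mul_of_nonneg_left hm2.le hLpos.le
      have h3 : L * (12 * G + 1) = 12 * (G * L) + L := by ring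
      have h4 : (32 + 8 * (κ : ℝ)) * (G * L) = 32 * (G * L) + 8 * (κ * (G * L)) := by ring
      have h5 : (κ : ℝ) * L ≤ κ * (G * L) := mul_le_mul_of_nonneg_left hGL hκ0
      rw [h4] at hpi2
      have h6 : 3 * (κ : ℝ) * L = 3 * (κ * L) := by ring
      rw [h6] at hlogD
      linarith
    exact_mod_cast h1
  set M := ⌊X⌋₊ with hM
  have hMX : (M : ℝ) ≤ X := Nat.floor_le (by positivity)
  have hcount := count_B (A := A) (A' := A') (B' := B') (Y := L ^ α) (M := M) (k := k) (m := m) (y := y)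
    (by omega) hyL P hP hkm S (by
      intro B hB
      obtain ⟨h1, h2⟩ := hS B hB
      refine ⟨?_, h2⟩
      have h3 : B.natAbs ≤ M := by
        apply Nat.le_floor
        rw [Nat.cast_natAbs, Int.cast_abs]
        exact h1
      have h4 : |B| = (B.natAbs : ℤ) := (Int.natCast_natAbs B).symm
      rw [h4]
      exact_mod_cast h3)
  have hyk : ((y : ℝ) ^ k) ^ 2 ≤ X := by
    have h1 : (y : ℝ) ^ k = Real.exp (k * Real.log y) := by
      rw [← Real.log_pow, Real.exp_log (by positivity)]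
    rw [h1, hXL, ← Real.exp_nat_mul]
    apply Real.exp_le_exp.2
    push_cast
    linarith
  have hGk := growG hα hη0 hη1 hη2 hL4 hy0 hly0 hyL hk2 g3
  rw [← hG] at hGk
  have hGm : G ^ k ≤ ((m : ℝ) * (1 / 12)) ^ k := pow_le_pow_left₀ (by positivity) (by linarith) k
  have hc2 : G ^ k * S.card ≤ 24 * X := by
    refine (mul_le_mul_of_nonneg_right hGm (Nat.cast_nonneg _)).trans (hcount.trans ?_)
    push_cast
    linarith
  have hc3 : Real.exp ((1 / 2 * (1 - 1 / α) - ε) * L) * S.card ≤ 24 * X :=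
    (mul_le_mul_of_nonneg_right hGk (Nat.cast_nonneg _)).trans hc2
  have hfin : X ^ (1 / 2 + 1 / (2 * α) + ε) * Real.exp ((1 / 2 * (1 - 1 / α) - ε) * L) = X := by
    rw [Real.rpow_def_of_pos hX0, ← hLdef, ← Real.exp_add]
    conv_rhs => rw [hXL]
    congr 1
    field_simp
    ring
  have hpos := Real.exp_pos ((1 / 2 * (1 - 1 / α) - ε) * L)
  have hfin2 : (S.card : ℝ) * Real.exp ((1 / 2 * (1 - 1 / α) - ε) * L) ≤
      24 * X ^ (1 / 2 + 1 / (2 * α) + ε) * Real.exp ((1 / 2 * (1 - 1 / α) - ε) * L) := by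
    rw [mul_assoc 24, hfin, mul_comm]
    exact hc3
  exact le_of_mul_le_mul_right hfin2 hpos

theorem int_box (X : ℝ) (hX : 0 ≤ X) (S : Finset ℤ) (hS : ∀ a ∈ S, |(a : ℝ)| ≤ X) :
    (S.card : ℝ) ≤ 2 * X + 1 := by
  have h1 : S ⊆ Icc (-(⌊X⌋)) ⌊X⌋ := by
    intro a ha
    have := hS a ha
    rw [abs_le] at this
    rw [mem_Icc]
    constructor
    · have h2 : -a ≤ ⌊X⌋ := Int.le_floor.2 (by push_cast; linarith [this.1])
      omega
    · exact Int.le_floor.2 this.2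
  have h2 := card_le_card h1
  rw [Int.card_Icc] at h2
  have h3 : 0 ≤ ⌊X⌋ := Int.floor_nonneg.2 hX
  have h4 : ((⌊X⌋ + 1 - -⌊X⌋).toNat : ℤ) = 2 * ⌊X⌋ + 1 := by
    rw [Int.toNat_of_nonneg (by omega)]
    ring
  have h5 : ((S.card : ℕ) : ℤ) ≤ 2 * ⌊X⌋ + 1 := by
    rw [← h4]
    exact_mod_cast h2
  have h6 : ((S.card : ℕ) : ℝ) ≤ 2 * (⌊X⌋ : ℝ) + 1 := by exact_mod_cast h5
  have h7 := Int.floor_le X
  linarith

/-- **few curves are not separated** -/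
theorem few_unsep {α ε : ℝ} (hα : 1 < α) (hε : 0 < ε) (κ : ℕ) : ∃ C : ℝ, ∀ X : ℝ, 1 ≤ X →
    ∀ A A' B' : ℤ, A ≠ 0 → |(A : ℝ)| ≤ X ^ κ → |(A' : ℝ)| ≤ X ^ κ → |(B' : ℝ)| ≤ X ^ κ →
      4 * A' ^ 3 + 27 * B' ^ 2 ≠ 0 → ∀ S : Finset ℤ,
        (∀ B ∈ S, |(B : ℝ)| ≤ X ∧ ¬ Sepd (Real.log X ^ α) A B A' B') →
          (S.card : ℝ) ≤ C * X ^ (1 / 2 + 1 / (2 * α) + ε) := by
  obtain ⟨X₀, hX₀, h⟩ := one_A hα hε κ
  refine ⟨24 + (2 * X₀ + 1), fun X hX A A' B' hA h1 h2 h3 hD S hS => ?_⟩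
  have hα0 : 0 < α := by linarith
  have hexp : 0 ≤ 1 / 2 + 1 / (2 * α) + ε := by positivity
  have hXκ : 1 ≤ X ^ (1 / 2 + 1 / (2 * α) + ε) := Real.one_le_rpow hX hexp
  rcases lt_or_ge X X₀ with hlt | hge
  · have h4 := int_box X (by linarith) S (fun a ha => (hS a ha).1)
    have h5 : (24 + (2 * X₀ + 1)) * 1 ≤ (24 + (2 * X₀ + 1)) * X ^ (1 / 2 + 1 / (2 * α) + ε) :=
      mul_le_mul_of_nonneg_left hXκ (by linarith)
    linarith
  · have h4 := h X hge A A' B' hA h1 h2 h3 hD S hS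
    have h5 : 0 ≤ (2 * X₀ + 1) * X ^ (1 / 2 + 1 / (2 * α) + ε) := by positivity
    have h6 : (24 + (2 * X₀ + 1)) * X ^ (1 / 2 + 1 / (2 * α) + ε) =
        24 * X ^ (1 / 2 + 1 / (2 * α) + ε) + (2 * X₀ + 1) * X ^ (1 / 2 + 1 / (2 * α) + ε) := by ring
    linarith

end Pool.Agent.Y673.LG
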