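import Pool.Agent.Helper112.LS

/-!
The prime step of the arithmetic large sieve (helper673).
-/

set_option autoImplicit false

namespace Pool.Agent.Y673.LG

open Finset
open Pool.Agent.Helper112 (ee ls_ee_zero ls_ee_add ls_ee_nat ls_ee_int ls_norm_ee ls_conj_ee)

/-- an exponential sum -/
noncomputable def Sx (N : ℕ) (α : ℕ → ℂ) (θ : ℝ) : ℂ := ∑ n ∈ Icc 1 N, α n * ee (n * θ)

theorem ee_pow (x : ℝ) (a : ℕ) : ee (x * a) = ee x ^ a := by
  induction a with
  | zero => rw [Nat.cast_zero, mul_zero, ls_ee_zero, pow_zero]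
  | succ a ih =>
    rw [Nat.cast_succ, mul_add, mul_one, ls_ee_add, ih, pow_succ]

theorem ee_eq_one {x : ℝ} (h : ee x = 1) : ∃ n : ℤ, x = n := by
  unfold ee at h
  rw [Complex.exp_eq_one_iff] at h
  obtain ⟨n, hn⟩ := h
  refine ⟨n, ?_⟩
  have h1 : (2 * (Real.pi : ℂ) * Complex.I) ≠ 0 := Complex.two_pi_I_ne_zero
  have h2 : (2 * (Real.pi : ℂ) * Complex.I) * (x : ℂ) = (2 * (Real.pi : ℂ) * Complex.I) * (n : ℂ) := by
    calc (2 * (Real.pi : ℂ) * Complex.I) * (x : ℂ) = 2 * (Real.pi : ℂ) * x * Complex.I := by ring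
      _ = n * (2 * (Real.pi : ℂ) * Complex.I) := hn
      _ = _ := by ring
  have h3 := mul_left_cancel₀ h1 h2
  exact_mod_cast h3

theorem orth {p : ℕ} (hp : 0 < p) (n m : ℕ) :
    ∑ a ∈ range p, ee (((n : ℝ) - m) / p * a) = if (n : ZMod p) = (m : ZMod p) then (p : ℂ) else 0 := by
  have hp0 : (p : ℝ) ≠ 0 := by exact_mod_cast hp.ne'
  simp_rw [ee_pow]
  split_ifs with h
  · have h1 : ((n : ℤ) : ZMod p) = ((m : ℤ) : ZMod p) := by exact_mod_cast h
    rw [ZMod.intCast_eq_intCast_iff_dvd_sub] at h1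
    obtain ⟨c, hc⟩ := h1
    have h2 : ee (((n : ℝ) - m) / p) = 1 := by
      have h3 : ((n : ℝ) - m) / p = ((-c : ℤ) : ℝ) := by
        rw [div_eq_iff hp0]
        have : (m : ℝ) - n = p * c := by exact_mod_cast hc
        push_cast
        linarith
      rw [h3, ls_ee_int]
    rw [h2]
    simp
  · have h2 : ee (((n : ℝ) - m) / p) ≠ 1 := by
      intro h3
      obtain ⟨c, hc⟩ := ee_eq_one h3
      rw [div_eq_iff hp0] at hc
      apply h
      have h4 : ((n : ℤ) - m) = c * p := by exact_mod_cast hc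
      have h5 : ((n : ℤ) : ZMod p) = ((m : ℤ) : ZMod p) := by
        rw [ZMod.intCast_eq_intCast_iff_dvd_sub]
        exact ⟨-c, by linarith⟩
      exact_mod_cast h5
    rw [geom_sum_eq h2, ← ee_pow, div_mul_cancel₀ _ hp0]
    have h6 : ee ((n : ℝ) - m) = 1 := by
      have := ls_ee_int ((n : ℤ) - m)
      push_cast at this
      exact this
    rw [h6, sub_self, zero_div]

theorem parseval {p : ℕ} (hp : 0 < p) [NeZero p] (N : ℕ) (β : ℕ → ℂ) :
    ∑ a ∈ range p, ‖∑ n ∈ Icc 1 N, β n * ee ((n : ℝ) * (a / p))‖ ^ 2 =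
      p * ∑ v : ZMod p, ‖∑ n ∈ (Icc 1 N).filter (fun n : ℕ => (n : ZMod p) = v), β n‖ ^ 2 := by
  have key : ∀ z : ℂ, ((‖z‖ ^ 2 : ℝ) : ℂ) = z * (starRingEnd ℂ) z := by
    intro z
    rw [Complex.mul_conj, Complex.normSq_eq_norm_sq]
  have h : (((∑ a ∈ range p, ‖∑ n ∈ Icc 1 N, β n * ee ((n : ℝ) * (a / p))‖ ^ 2 : ℝ)) : ℂ) =
      ((p * ∑ v : ZMod p, ‖∑ n ∈ (Icc 1 N).filter (fun n : ℕ => (n : ZMod p) = v), β n‖ ^ 2 : ℝ) : ℂ) := by
    push_cast
    have e1 : ∀ a ∈ range p, ((‖∑ n ∈ Icc 1 N, β n * ee ((n : ℝ) * (a / p))‖ : ℂ)) ^ 2 =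
        ∑ n ∈ Icc 1 N, ∑ m ∈ Icc 1 N, β n * (starRingEnd ℂ) (β m) * ee (((n : ℝ) - m) / p * a) := by
      intro a _
      have := key (∑ n ∈ Icc 1 N, β n * ee ((n : ℝ) * (a / p)))
      push_cast at this
      rw [this, map_sum, sum_mul_sum]
      apply sum_congr rfl
      intro n _
      apply sum_congr rfl
      intro m _
      rw [map_mul, ls_conj_ee]
      have e2 : ((n : ℝ) - m) / p * a = (n : ℝ) * (a / p) + -((m : ℝ) * (a / p)) := by ring
      rw [e2, ls_ee_add]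
      ring
    rw [sum_congr rfl e1, sum_comm]
    have e3 : ∀ n ∈ Icc 1 N, ∑ a ∈ range p, ∑ m ∈ Icc 1 N,
        β n * (starRingEnd ℂ) (β m) * ee (((n : ℝ) - m) / p * a) =
        ∑ m ∈ Icc 1 N, β n * (starRingEnd ℂ) (β m) *
          (if (n : ZMod p) = (m : ZMod p) then (p : ℂ) else 0) := by
      intro n _
      rw [sum_comm]
      apply sum_congr rfl
      intro m _
      rw [← mul_sum, orth hp]
    rw [sum_congr rfl e3]
    have e4 : ∀ v ∈ (univ : Finset (ZMod p)),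
        ((‖∑ n ∈ (Icc 1 N).filter (fun n : ℕ => (n : ZMod p) = v), β n‖ : ℂ)) ^ 2 =
        ∑ n ∈ Icc 1 N, ∑ m ∈ Icc 1 N, β n * (starRingEnd ℂ) (β m) *
          (if (n : ZMod p) = v ∧ (m : ZMod p) = v then (1 : ℂ) else 0) := by
      intro v _
      have := key (∑ n ∈ (Icc 1 N).filter (fun n : ℕ => (n : ZMod p) = v), β n)
      push_cast at this
      rw [this, map_sum, sum_mul_sum, sum_filter]
      apply sum_congr rfl
      intro n _
      split_ifs with h1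
      · rw [sum_filter]
        apply sum_congr rfl
        intro m _
        by_cases h2 : (m : ZMod p) = v
        · rw [if_pos h2, if_pos ⟨h1, h2⟩, mul_one]
        · rw [if_neg h2, if_neg (fun h3 => h2 h3.2), mul_zero]
      · symm
        apply sum_eq_zero
        intro m _
        rw [if_neg (fun h3 => h1 h3.1), mul_zero]
    have e6 : ∑ v : ZMod p, ∑ n ∈ Icc 1 N, ∑ m ∈ Icc 1 N, β n * (starRingEnd ℂ) (β m) *
          (if (n : ZMod p) = v ∧ (m : ZMod p) = v then (1 : ℂ) else 0) =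
        ∑ n ∈ Icc 1 N, ∑ m ∈ Icc 1 N, ∑ v : ZMod p, β n * (starRingEnd ℂ) (β m) *
          (if (n : ZMod p) = v ∧ (m : ZMod p) = v then (1 : ℂ) else 0) := by
      rw [sum_comm]
      apply sum_congr rfl
      intro n _
      rw [sum_comm]
    rw [sum_congr rfl e4, e6, mul_sum]
    apply sum_congr rfl
    intro n _
    rw [mul_sum]
    apply sum_congr rfl
    intro m _
    rw [← mul_sum]
    have e5 : ∑ v : ZMod p, (if (n : ZMod p) = v ∧ (m : ZMod p) = v then (1 : ℂ) else 0) =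
        if (n : ZMod p) = (m : ZMod p) then 1 else 0 := by
      rw [sum_eq_single (n : ZMod p)]
      · by_cases h1 : (n : ZMod p) = (m : ZMod p)
        · rw [if_pos h1, if_pos ⟨rfl, h1.symm⟩]
        · rw [if_neg h1, if_neg (fun h2 => h1 h2.2.symm)]
      · intro v _ hv
        rw [if_neg (fun h2 => hv h2.1.symm)]
      · intro h1; exact absurd (mem_univ _) h1
    rw [e5]
    split_ifs <;> ring
  exact_mod_cast h

theorem prime_step {p : ℕ} (hp : p.Prime) (N : ℕ) (α : ℕ → ℂ) (Om : Finset (ZMod p))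
    (h : ∀ n ∈ Icc 1 N, α n ≠ 0 → ((n : ℕ) : ZMod p) ∉ Om) (θ : ℝ) :
    ((Om.card : ℝ) / p) * ‖Sx N α θ‖ ^ 2 ≤ ∑ a ∈ Ioo 0 p, ‖Sx N α (θ + a / p)‖ ^ 2 := by
  haveI : NeZero p := ⟨hp.ne_zero⟩
  haveI : Fact p.Prime := ⟨hp⟩
  set β : ℕ → ℂ := fun n => α n * ee (n * θ) with hβ
  set Z : ZMod p → ℂ := fun v => ∑ n ∈ (Icc 1 N).filter (fun n : ℕ => (n : ZMod p) = v), β n with hZ
  have h1 : ∀ a : ℕ, Sx N α (θ + a / p) = ∑ n ∈ Icc 1 N, β n * ee ((n : ℝ) * (a / p)) := by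
    intro a
    unfold Sx
    apply sum_congr rfl
    intro n _
    rw [mul_add, ls_ee_add, hβ]
    ring
  have h2 := parseval hp.pos N β
  have h3 : ∑ a ∈ range p, ‖Sx N α (θ + a / p)‖ ^ 2 = p * ∑ v : ZMod p, ‖Z v‖ ^ 2 := by
    rw [← h2]
    apply sum_congr rfl
    intro a _
    rw [h1]
  have h4 : range p = insert 0 (Ioo 0 p) := by
    ext a
    simp only [mem_range, mem_insert, mem_Ioo]
    have := hp.pos
    omega
  rw [h4, sum_insert (by simp)] at h3
  have h5 : Sx N α (θ + ((0 : ℕ) : ℝ) / p) = Sx N α θ := by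
    rw [Nat.cast_zero, zero_div, add_zero]
  rw [h5] at h3
  have h6 : Sx N α θ = ∑ v ∈ Omᶜ, Z v := by
    have e1 : Sx N α θ = ∑ v : ZMod p, Z v := by
      rw [hZ]
      simp only
      rw [sum_fiberwise]
      rfl
    rw [e1, ← sum_compl_add_sum Om]
    have e2 : ∑ v ∈ Om, Z v = 0 := by
      apply sum_eq_zero
      intro v hv
      apply sum_eq_zero
      intro n hn
      rw [mem_filter] at hn
      by_contra hne
      have h7 : α n ≠ 0 := by
        intro h0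
        apply hne
        rw [hβ]
        simp only
        rw [h0, zero_mul]
      exact h n hn.1 h7 (by rw [hn.2]; exact hv)
    rw [e2, add_zero]
  have h7 : ‖Sx N α θ‖ ^ 2 ≤ ((p : ℝ) - Om.card) * ∑ v : ZMod p, ‖Z v‖ ^ 2 := by
    rw [h6]
    have e1 : ‖∑ v ∈ Omᶜ, Z v‖ ^ 2 ≤ (∑ v ∈ Omᶜ, ‖Z v‖) ^ 2 :=
      pow_le_pow_left₀ (norm_nonneg _) (norm_sum_le _ _) 2
    have e2 := sq_sum_le_card_mul_sum_sq (s := Omᶜ) (f := fun v => ‖Z v‖)
    have e3 : ((Omᶜ.card : ℕ) : ℝ) = (p : ℝ) - Om.card := by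
      rw [card_compl, ZMod.card, Nat.cast_sub]
      have := card_le_univ Om
      rwa [ZMod.card] at this
    rw [e3] at e2
    refine e1.trans (e2.trans ?_)
    apply mul_le_mul_of_nonneg_left
    · apply sum_le_univ_sum_of_nonneg
      intro v
      positivity
    · rw [← e3]
      positivity
  have hp0 : (0 : ℝ) < p := by exact_mod_cast hp.pos
  have hG : 0 ≤ ∑ v : ZMod p, ‖Z v‖ ^ 2 := by positivity
  have hω : (0 : ℝ) ≤ Om.card := by positivity
  set G := ∑ v : ZMod p, ‖Z v‖ ^ 2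
  set s := ‖Sx N α θ‖ ^ 2
  have h8 : ∑ a ∈ Ioo 0 p, ‖Sx N α (θ + a / p)‖ ^ 2 = p * G - s := by linarith
  rw [h8, div_mul_eq_mul_div, div_le_iff₀ hp0]
  nlinarith [mul_nonneg hω hG, mul_nonneg (mul_nonneg hω hω) hG,
    mul_le_mul_of_nonneg_left h7 (by linarith : (0 : ℝ) ≤ (p : ℝ) + Om.card)]

end Pool.Agent.Y673.LG
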