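import Pool.Agent.Y673.LG.Sv1

/-!
The arithmetic large sieve with one prime from each of several blocks (helper673).
-/

set_option autoImplicit false

namespace Pool.Agent.Y673.LG

open Finset
open Pool.Agent.Helper112 (lsSep ls_general ee ls_ee_zero)

/-- the fraction of a pair -/
def vl (g : Σ _ : ℕ, ℕ) : ℚ := (g.2 : ℚ) / g.1

/-- the fractions with denominator in `P` -/
def Gb (P : Finset ℕ) : Finset (Σ _ : ℕ, ℕ) := P.sigma fun p => Ioo 0 p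

/-- the integers with nonzero coefficient avoid many classes -/
def Av (N : ℕ) (α : ℕ → ℂ) (h : ℝ) (p : ℕ) : Prop :=
  ∃ Om : Finset (ZMod p), h ≤ (Om.card : ℝ) / p ∧
    ∀ n ∈ Icc 1 N, α n ≠ 0 → ((n : ℕ) : ZMod p) ∉ Om

theorem block_step {N : ℕ} {α : ℕ → ℂ} {h : ℝ} (P : Finset ℕ)
    (hP : ∀ p ∈ P, p.Prime ∧ Av N α h p) (θ : ℝ) :
    (P.card * h) * ‖Sx N α θ‖ ^ 2 ≤ ∑ g ∈ Gb P, ‖Sx N α (θ + (vl g : ℝ))‖ ^ 2 := by
  unfold Gb
  rw [sum_sigma]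
  have h1 : ∀ p ∈ P, h * ‖Sx N α θ‖ ^ 2 ≤
      ∑ a ∈ Ioo 0 p, ‖Sx N α (θ + ((vl ⟨p, a⟩ : ℚ) : ℝ))‖ ^ 2 := by
    intro p hp
    obtain ⟨hpp, Om, hO, hav⟩ := hP p hp
    have h2 := prime_step hpp N α Om hav θ
    have h3 : h * ‖Sx N α θ‖ ^ 2 ≤ ((Om.card : ℝ) / p) * ‖Sx N α θ‖ ^ 2 :=
      mul_le_mul_of_nonneg_right hO (by positivity)
    refine h3.trans (h2.trans (le_of_eq ?_))
    apply sum_congr rfl
    intro a _
    unfold vl
    push_cast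
    rfl
  calc (P.card * h) * ‖Sx N α θ‖ ^ 2 = ∑ _p ∈ P, h * ‖Sx N α θ‖ ^ 2 := by
        rw [sum_const, nsmul_eq_mul, mul_assoc]
    _ ≤ _ := sum_le_sum h1

theorem tuple_step {N : ℕ} {α : ℕ → ℂ} {h : ℝ} (hh : 0 ≤ h) (m : ℕ) (k : ℕ) :
    ∀ (B : Fin k → Finset ℕ), (∀ i, m ≤ (B i).card) → (∀ i, ∀ p ∈ B i, p.Prime ∧ Av N α h p) →
      ∀ θ : ℝ, (m * h) ^ k * ‖Sx N α θ‖ ^ 2 ≤
        ∑ c ∈ Fintype.piFinset (fun i => Gb (B i)), ‖Sx N α (θ + ((∑ i, vl (c i) : ℚ) : ℝ))‖ ^ 2 := by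
  induction k with
  | zero =>
    intro B _ _ θ
    rw [pow_zero, one_mul]
    apply le_of_eq
    rw [Fintype.piFinset_of_isEmpty]
    simp
  | succ k ih =>
    intro B hm hB θ
    have hsum : ∑ c ∈ Fintype.piFinset (fun i => Gb (B i)),
        ‖Sx N α (θ + ((∑ i, vl (c i) : ℚ) : ℝ))‖ ^ 2 =
        ∑ g ∈ Gb (B 0), ∑ c ∈ Fintype.piFinset (fun i : Fin k => Gb (B i.succ)),
          ‖Sx N α ((θ + (vl g : ℝ)) + ((∑ i, vl (c i) : ℚ) : ℝ))‖ ^ 2 := by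
      rw [← sum_product']
      refine sum_nbij' (fun c => (c 0, fun i : Fin k => c i.succ))
        (fun x => Fin.cons (α := fun _ => (Σ _ : ℕ, ℕ)) x.1 x.2) ?_ ?_ ?_ ?_ ?_
      · intro c hc
        rw [Fintype.mem_piFinset] at hc
        rw [mem_product, Fintype.mem_piFinset]
        exact ⟨hc 0, fun i => hc i.succ⟩
      · intro x hx
        rw [mem_product, Fintype.mem_piFinset] at hx
        rw [Fintype.mem_piFinset]
        intro i
        refine Fin.cases ?_ (fun j => ?_) i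
        · exact hx.1
        · exact hx.2 j
      · intro c _
        funext i
        refine Fin.cases ?_ (fun j => ?_) i
        · rfl
        · rfl
      · intro x _
        rfl
      · intro c _
        simp only
        rw [Fin.sum_univ_succ]
        push_cast
        rw [add_assoc]
    rw [hsum]
    have h1 := block_step (B 0) (hB 0) θ
    have hmc : (m : ℝ) ≤ (B 0).card := by exact_mod_cast hm 0
    calc (m * h) ^ (k + 1) * ‖Sx N α θ‖ ^ 2 = (m * h) ^ k * ((m * h) * ‖Sx N α θ‖ ^ 2) := by ring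
      _ ≤ (m * h) ^ k * (((B 0).card * h) * ‖Sx N α θ‖ ^ 2) := by gcongr
      _ ≤ (m * h) ^ k * ∑ g ∈ Gb (B 0), ‖Sx N α (θ + (vl g : ℝ))‖ ^ 2 := by gcongr
      _ = ∑ g ∈ Gb (B 0), (m * h) ^ k * ‖Sx N α (θ + (vl g : ℝ))‖ ^ 2 := by rw [mul_sum]
      _ ≤ _ := sum_le_sum fun g _ => ih (fun i => B i.succ) (fun i => hm i.succ)
          (fun i => hB i.succ) (θ + (vl g : ℝ))

theorem pn_same {p : ℕ} (hp : p.Prime) {a : ℤ} (ha : ¬ (p : ℤ) ∣ a) :
    padicNorm p ((a : ℚ) / p) = p := by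
  haveI : Fact p.Prime := ⟨hp⟩
  rw [padicNorm.div, padicNorm.padicNorm_p_of_prime, (padicNorm.int_eq_one_iff a).2 ha]
  simp

theorem pn_other {p q : ℕ} (hp : p.Prime) (hq : q.Prime) (h : p ≠ q) (a : ℕ) :
    padicNorm p ((a : ℚ) / q) ≤ 1 := by
  haveI : Fact p.Prime := ⟨hp⟩
  haveI : Fact q.Prime := ⟨hq⟩
  rw [padicNorm.div, padicNorm.padicNorm_of_prime_of_ne h, div_one]
  exact padicNorm.of_nat a

theorem vl_diff {P : Finset ℕ} (hP : ∀ p ∈ P, p.Prime) {g g' : Σ _ : ℕ, ℕ} (hg : g ∈ Gb P)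
    (hg' : g' ∈ Gb P) (hne : g ≠ g') : padicNorm g.1 (vl g' - vl g) = g.1 := by
  obtain ⟨p, a⟩ := g
  obtain ⟨p', a'⟩ := g'
  unfold Gb at hg hg'
  rw [mem_sigma, mem_Ioo] at hg hg'
  simp only at hg hg' ⊢
  have hp := hP p hg.1
  have hp' := hP p' hg'.1
  haveI : Fact p.Prime := ⟨hp⟩
  unfold vl
  simp only
  by_cases h : p = p'
  · subst h
    have haa : a ≠ a' := by
      rintro rfl
      exact hne rfl
    have h1 : (a' : ℚ) / p - (a : ℚ) / p = (((a' : ℤ) - a : ℤ) : ℚ) / p := by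
      push_cast
      ring
    rw [h1]
    apply pn_same hp
    intro hd
    have h2 : ((a' : ℤ) - a).natAbs < p := by omega
    have h3 : (a' : ℤ) - a ≠ 0 := by omega
    have h4 := Int.natAbs_dvd_natAbs.2 hd
    rw [Int.natAbs_natCast] at h4
    have := Nat.le_of_dvd (Int.natAbs_pos.2 h3) h4
    omega
  · have h1 : padicNorm p ((a : ℚ) / p) = p := by
      have := pn_same hp (a := (a : ℤ)) (by
        intro hd
        have h2 : p ∣ a := by exact_mod_cast hd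
        have := Nat.le_of_dvd hg.2.1 h2
        omega)
      rwa [Int.cast_natCast] at this
    have h2 := pn_other hp hp' h a'
    have h3 : (1 : ℚ) < p := by exact_mod_cast hp.one_lt
    rw [sub_eq_add_neg]
    rw [padicNorm.add_eq_max_of_ne]
    · rw [padicNorm.neg, h1]
      exact max_eq_right (h2.trans h3.le)
    · rw [padicNorm.neg, h1]
      exact (lt_of_le_of_lt h2 h3).ne

theorem not_int {k : ℕ} {B : Fin k → Finset ℕ} (hB : ∀ i, ∀ p ∈ B i, p.Prime)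
    (hd : ∀ i j, ∀ p, p ∈ B i → p ∈ B j → i = j) {c c' : Fin k → Σ _ : ℕ, ℕ}
    (hc : ∀ i, c i ∈ Gb (B i)) (hc' : ∀ i, c' i ∈ Gb (B i)) (hne : c ≠ c') (z : ℤ) :
    (∑ i, vl (c' i)) - ∑ i, vl (c i) ≠ (z : ℚ) := by
  classical
  intro hz
  obtain ⟨i₀, hi₀⟩ : ∃ i, c i ≠ c' i := by
    by_contra hcon
    push Not at hcon
    exact hne (funext hcon)
  set p := (c i₀).1 with hp_def
  have hpB : p ∈ B i₀ := by
    have := hc i₀
    unfold Gb at this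
    rw [mem_sigma] at this
    exact this.1
  have hp := hB i₀ p hpB
  haveI : Fact p.Prime := ⟨hp⟩
  have h1 := vl_diff (hB i₀) (hc i₀) (hc' i₀) hi₀
  rw [← hp_def] at h1
  have h2 : vl (c' i₀) - vl (c i₀) = z + -(∑ i ∈ univ.erase i₀, (vl (c' i) - vl (c i))) := by
    rw [← hz, ← sum_sub_distrib, ← add_sum_erase univ _ (mem_univ i₀)]
    ring
  have h3 : padicNorm p (∑ i ∈ univ.erase i₀, (vl (c' i) - vl (c i))) ≤ 1 := by
    apply padicNorm.sum_le' _ zero_le_one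
    intro i hi
    have hii : i ≠ i₀ := (mem_erase.1 hi).1
    have key : ∀ g : (Σ _ : ℕ, ℕ), g ∈ Gb (B i) → padicNorm p (vl g) ≤ 1 := by
      intro g hg
      unfold Gb at hg
      rw [mem_sigma] at hg
      apply pn_other hp (hB i _ hg.1)
      intro he
      exact hii (hd i i₀ p (by rw [he]; exact hg.1) hpB)
    rw [sub_eq_add_neg]
    refine padicNorm.nonarchimedean.trans (max_le (key _ (hc' i)) ?_)
    rw [padicNorm.neg]
    exact key _ (hc i)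
  have h4 : padicNorm p (vl (c' i₀) - vl (c i₀)) ≤ 1 := by
    rw [h2]
    refine padicNorm.nonarchimedean.trans (max_le (padicNorm.of_int z) ?_)
    rw [padicNorm.neg]
    exact h3
  rw [h1] at h4
  have : (1 : ℚ) < p := by exact_mod_cast hp.one_lt
  linarith

theorem exists_num {k : ℕ} (c : Fin k → Σ _ : ℕ, ℕ) (h0 : ∀ i, 0 < (c i).1) :
    ∃ z : ℤ, ∑ i, vl (c i) = (z : ℚ) / ((∏ i, (c i).1 : ℕ) : ℚ) := by
  classical
  have key : ∀ s : Finset (Fin k), ∃ z : ℤ, ∑ i ∈ s, vl (c i) = (z : ℚ) / ((∏ i ∈ s, (c i).1 : ℕ) : ℚ) := by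
    intro s
    induction s using Finset.induction_on with
    | empty => exact ⟨0, by simp⟩
    | insert i s hi ih =>
      obtain ⟨z, hz⟩ := ih
      refine ⟨(c i).2 * (∏ i ∈ s, (c i).1 : ℕ) + z * (c i).1, ?_⟩
      rw [sum_insert hi, hz, prod_insert hi]
      have h1 : (((c i).1 : ℕ) : ℚ) ≠ 0 := by exact_mod_cast (h0 i).ne'
      have h2 : ((∏ i ∈ s, (c i).1 : ℕ) : ℚ) ≠ 0 := by
        exact_mod_cast (Finset.prod_pos fun i _ => h0 i).ne'
      unfold vl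
      push_cast at h2 ⊢
      field_simp
  exact key univ

theorem sep {k y : ℕ} {B : Fin k → Finset ℕ} (hB : ∀ i, ∀ p ∈ B i, p.Prime ∧ p ≤ y)
    (hd : ∀ i j, ∀ p, p ∈ B i → p ∈ B j → i = j) {c c' : Fin k → Σ _ : ℕ, ℕ}
    (hc : ∀ i, c i ∈ Gb (B i)) (hc' : ∀ i, c' i ∈ Gb (B i)) (hne : c ≠ c') :
    lsSep ((y ^ k) ^ 2) (((∑ i, vl (c' i) : ℚ) : ℝ) - ((∑ i, vl (c i) : ℚ) : ℝ)) := by
  have hpr : ∀ c : Fin k → Σ _ : ℕ, ℕ, (∀ i, c i ∈ Gb (B i)) → (∀ i, 0 < (c i).1) ∧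
      (∏ i, (c i).1) ≤ y ^ k := by
    intro c hc
    have h1 : ∀ i, (c i).1 ∈ B i := by
      intro i
      have := hc i
      unfold Gb at this
      rw [mem_sigma] at this
      exact this.1
    refine ⟨fun i => (hB i _ (h1 i)).1.pos, ?_⟩
    calc (∏ i, (c i).1) ≤ ∏ _i : Fin k, y := prod_le_prod' fun i _ => (hB i _ (h1 i)).2
      _ = y ^ k := by rw [prod_const, card_univ, Fintype.card_fin]
  obtain ⟨h0, h1⟩ := hpr c hc
  obtain ⟨h0', h1'⟩ := hpr c' hc'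
  obtain ⟨z, hz⟩ := exists_num c h0
  obtain ⟨z', hz'⟩ := exists_num c' h0'
  set M := ∏ i, (c i).1 with hM
  set M' := ∏ i, (c' i).1 with hM'
  have hM0 : 0 < M := Finset.prod_pos fun i _ => h0 i
  have hM0' : 0 < M' := Finset.prod_pos fun i _ => h0' i
  set w : ℤ := z' * M - z * M' with hw
  have hD : (∑ i, vl (c' i)) - ∑ i, vl (c i) = (w : ℚ) / ((M * M' : ℕ) : ℚ) := by
    rw [hz, hz', hw]
    have e1 : (M : ℚ) ≠ 0 := by exact_mod_cast hM0.ne'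
    have e2 : (M' : ℚ) ≠ 0 := by exact_mod_cast hM0'.ne'
    push_cast
    field_simp
  have hMM : 0 < M * M' := Nat.mul_pos hM0 hM0'
  have hmod : w % ((M * M' : ℕ) : ℤ) ≠ 0 := by
    intro h2
    obtain ⟨t, ht⟩ := Int.dvd_of_emod_eq_zero h2
    apply not_int (fun i p hp => (hB i p hp).1) hd hc hc' hne t
    rw [hD, ht]
    have e1 : ((M * M' : ℕ) : ℚ) ≠ 0 := by exact_mod_cast hMM.ne'
    push_cast at e1 ⊢
    field_simp
  have hR : ((∑ i, vl (c' i) : ℚ) : ℝ) - ((∑ i, vl (c i) : ℚ) : ℝ) =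
      (w : ℝ) / ((M * M' : ℕ) : ℝ) := by
    have := congrArg (fun q : ℚ => (q : ℝ)) hD
    push_cast at this ⊢
    exact this
  have hlt : w % ((M * M' : ℕ) : ℤ) < ((M * M' : ℕ) : ℤ) := Int.emod_lt_of_pos _ (by exact_mod_cast hMM)
  have hnn : 0 ≤ w % ((M * M' : ℕ) : ℤ) := Int.emod_nonneg _ (by positivity)
  have hge : 1 ≤ w % ((M * M' : ℕ) : ℤ) := by omega
  have hle : w % ((M * M' : ℕ) : ℤ) ≤ ((M * M' : ℕ) : ℤ) - 1 := by omega
  have hK : M * M' ≤ (y ^ k) ^ 2 := by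
    rw [sq]
    exact Nat.mul_le_mul h1 h1'
  have hKr : ((M * M' : ℕ) : ℝ) ≤ (((y ^ k) ^ 2 : ℕ) : ℝ) := by exact_mod_cast hK
  have hdR : (0 : ℝ) < ((M * M' : ℕ) : ℝ) := by exact_mod_cast hMM
  have hinv : 1 / (((y ^ k) ^ 2 : ℕ) : ℝ) ≤ 1 / ((M * M' : ℕ) : ℝ) :=
    one_div_le_one_div_of_le hdR hKr
  unfold lsSep
  rw [hR, Int.fract_div_intCast_eq_div_intCast_mod]
  constructor
  · refine hinv.trans ?_
    rw [div_le_div_iff_of_pos_right hdR]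
    exact_mod_cast hge
  · have e1 : ((w % ((M * M' : ℕ) : ℤ) : ℤ) : ℝ) ≤ ((M * M' : ℕ) : ℝ) - 1 := by
      have : ((w % ((M * M' : ℕ) : ℤ) : ℤ) : ℝ) ≤ ((((M * M' : ℕ) : ℤ) - 1 : ℤ) : ℝ) := by
        exact_mod_cast hle
      refine this.trans (le_of_eq ?_)
      push_cast
      ring
    have e2 : ((w % ((M * M' : ℕ) : ℤ) : ℤ) : ℝ) / ((M * M' : ℕ) : ℝ) ≤
        (((M * M' : ℕ) : ℝ) - 1) / ((M * M' : ℕ) : ℝ) := by
      rw [div_le_div_iff_of_pos_right hdR]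
      exact e1
    have e3 : (((M * M' : ℕ) : ℝ) - 1) / ((M * M' : ℕ) : ℝ) = 1 - 1 / ((M * M' : ℕ) : ℝ) := by
      rw [sub_div, div_self hdR.ne']
    linarith

/-- **the sieve** -/
theorem sieve {N k y m : ℕ} (hy : 1 ≤ y) {h : ℝ} (hh : 0 ≤ h) (B : Fin k → Finset ℕ)
    (hm : ∀ i, m ≤ (B i).card) (hB : ∀ i, ∀ p ∈ B i, p.Prime ∧ p ≤ y)
    (hd : ∀ i j, ∀ p, p ∈ B i → p ∈ B j → i = j) (S : Finset ℕ) (hS : S ⊆ Icc 1 N)
    (hO : ∀ i, ∀ p ∈ B i, ∃ Om : Finset (ZMod p), h ≤ (Om.card : ℝ) / p ∧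
      ∀ n ∈ S, ((n : ℕ) : ZMod p) ∉ Om) :
    (m * h) ^ k * S.card ≤ 6 * ((N : ℝ) + (y ^ k) ^ 2) := by
  classical
  rcases S.eq_empty_or_nonempty with he | hne
  · rw [he, card_empty, Nat.cast_zero, mul_zero]
    positivity
  set α : ℕ → ℂ := fun n => if n ∈ S then 1 else 0 with hα
  have h1 := tuple_step (N := N) (α := α) hh m k B hm (fun i p hp => by
    obtain ⟨Om, hO1, hO2⟩ := hO i p hp
    refine ⟨(hB i p hp).1, Om, hO1, fun n _ hn => hO2 n ?_⟩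
    by_contra hnS
    apply hn
    rw [hα]
    simp only
    rw [if_neg hnS]) 0
  have h2 := ls_general (Fintype.piFinset fun i => Gb (B i))
    (fun c => ((∑ i, vl (c i) : ℚ) : ℝ)) ((y ^ k) ^ 2) N
    (Nat.one_le_pow _ _ (Nat.one_le_pow _ _ hy)) (by
      intro c hc c' hc' hne'
      rw [Fintype.mem_piFinset] at hc hc'
      exact sep hB hd hc hc' hne') α
  have h3 : Sx N α 0 = S.card := by
    unfold Sx
    have e1 : ∀ n ∈ Icc 1 N, α n * ee (n * 0) = if n ∈ S then 1 else 0 := by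
      intro n _
      rw [mul_zero, ls_ee_zero, mul_one]
    rw [sum_congr rfl e1, sum_ite_mem, inter_eq_right.2 hS]
    simp
  have h4 : ∑ n ∈ Icc 1 N, ‖α n‖ ^ 2 = S.card := by
    have e1 : ∀ n ∈ Icc 1 N, ‖α n‖ ^ 2 = if n ∈ S then (1 : ℝ) else 0 := by
      intro n _
      rw [hα]
      simp only
      split_ifs <;> simp
    rw [sum_congr rfl e1, sum_ite_mem, inter_eq_right.2 hS]
    simp
  rw [h3] at h1
  rw [h4] at h2
  have h5 : (m * h) ^ k * ‖(S.card : ℂ)‖ ^ 2 ≤ 6 * ((N : ℝ) + (((y ^ k) ^ 2 : ℕ) : ℝ)) * S.card := by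
    refine h1.trans (le_trans (le_of_eq ?_) h2)
    apply sum_congr rfl
    intro c _
    unfold Sx
    rw [zero_add]
  rw [Complex.norm_natCast] at h5
  have hpos : (0 : ℝ) < S.card := by exact_mod_cast hne.card_pos
  have h6 : ((m * h) ^ k * S.card) * S.card ≤ (6 * ((N : ℝ) + (((y ^ k) ^ 2 : ℕ) : ℝ))) * S.card := by
    calc ((m * h) ^ k * S.card) * S.card = (m * h) ^ k * (S.card : ℝ) ^ 2 := by ring
      _ ≤ _ := h5
  have h7 := le_of_mul_le_mul_right h6 hpos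
  push_cast at h7
  exact h7

end Pool.Agent.Y673.LG
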